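import Mathlib

set_option autoImplicit false
set_option linter.unusedSectionVars false
set_option linter.unusedVariables false
set_option linter.unusedSimpArgs false

namespace Pool.Agent.W_MP_7483c9_co

open Finset

variable {m : ℕ}

/-- sign of a bit, in `ℤ` -/
def zs (b : Bool) : ℤ := if b then -1 else 1

lemma zs_pm (b : Bool) : zs b = 1 ∨ zs b = -1 := by cases b <;> simp [zs]

/-- normalising signs -/
def dl (C : Matrix (Fin (m + 1)) (Fin (m + 1)) ℤ) (j : Fin (m + 1)) : ℤ :=
  if j = 0 then 1 else C 0 j

/-- normalised matrix -/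
def Cn (C : Matrix (Fin (m + 1)) (Fin (m + 1)) ℤ) (i j : Fin (m + 1)) : ℤ :=
  dl C i * dl C j * C i j

/-- sign of the codeword `(i,b)` at coordinate `a` -/
def vv (C : Matrix (Fin (m + 1)) (Fin (m + 1)) ℤ) (i : Fin (m + 1)) (b : Bool) (a : Fin m) : ℤ :=
  if i = a.succ then 1 else zs b * Cn C i a.succ

/-- the codeword -/
def word (C : Matrix (Fin (m + 1)) (Fin (m + 1)) ℤ) (p : Fin (m + 1) × Bool) (a : Fin m) : Bool :=
  decide (vv C p.1 p.2 a = 1)

section
variable (C : Matrix (Fin (m + 1)) (Fin (m + 1)) ℤ) (hsymm : C.IsSymm) (hd : ∀ i, C i i = 0)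
  (hpm : ∀ i j, i ≠ j → C i j = 1 ∨ C i j = -1)
  (hC : C * C.transpose = (((m + 1 : ℕ) : ℤ) - 1) • (1 : Matrix (Fin (m + 1)) (Fin (m + 1)) ℤ))

include hpm in
lemma dl_pm (j : Fin (m + 1)) : dl C j = 1 ∨ dl C j = -1 := by
  unfold dl
  split_ifs with h
  · left; rfl
  · exact hpm 0 j (fun e => h e.symm)

include hpm in
lemma dl_sq (j : Fin (m + 1)) : dl C j * dl C j = 1 := by
  rcases dl_pm C hpm j with h | h <;> rw [h] <;> norm_num

include hpm in
lemma Cn_pm (i j : Fin (m + 1)) (hij : i ≠ j) : Cn C i j = 1 ∨ Cn C i j = -1 := by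
  unfold Cn
  rcases dl_pm C hpm i with h | h <;> rcases dl_pm C hpm j with h' | h' <;>
    rcases hpm i j hij with h'' | h'' <;> rw [h, h', h''] <;> norm_num

include hd in
lemma Cn_diag (i : Fin (m + 1)) : Cn C i i = 0 := by unfold Cn; rw [hd]; ring

include hsymm in
lemma Cn_symm (i j : Fin (m + 1)) : Cn C i j = Cn C j i := by
  unfold Cn
  have : C i j = C j i := (hsymm.apply i j).symm
  rw [this]; ring

include hpm in
lemma Cn_zero (j : Fin m) : Cn C 0 j.succ = 1 := by
  unfold Cn dl
  have h1 : (j.succ : Fin (m + 1)) ≠ 0 := Fin.succ_ne_zero j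
  rw [if_pos rfl, if_neg h1]
  rcases hpm 0 j.succ h1.symm with h | h <;> rw [h] <;> norm_num

include hpm hC in
lemma Cn_orth (i j : Fin (m + 1)) (hij : i ≠ j) : ∑ a, Cn C i a * Cn C j a = 0 := by
  have h1 := congrFun (congrFun hC i) j
  rw [Matrix.mul_apply, Matrix.smul_apply, Matrix.one_apply_ne hij] at h1
  simp only [Matrix.transpose_apply, smul_zero] at h1
  have h2 : ∀ a, Cn C i a * Cn C j a = dl C i * dl C j * (C i a * C j a) := by
    intro a
    unfold Cn
    have := dl_sq C hpm a
    calc dl C i * dl C a * C i a * (dl C j * dl C a * C j a)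
        = dl C i * dl C j * (C i a * C j a) * (dl C a * dl C a) := by ring
      _ = _ := by rw [this]; ring
  rw [Finset.sum_congr rfl (fun a _ => h2 a), ← Finset.mul_sum, h1, mul_zero]

include hpm hd in
lemma vv_pm (i : Fin (m + 1)) (b : Bool) (a : Fin m) : vv C i b a = 1 ∨ vv C i b a = -1 := by
  unfold vv
  split_ifs with h
  · left; rfl
  · rcases zs_pm b with h1 | h1 <;> rcases Cn_pm C hpm i a.succ h with h2 | h2 <;>
      rw [h1, h2] <;> norm_num

include hsymm hd hpm hC in
lemma vv_ip (hm : 2 ≤ m) (i j : Fin (m + 1)) (b b' : Bool) (hne : (i, b) ≠ (j, b')) :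
    ∑ a, vv C i b a * vv C j b' a ≤ 1 := by
  classical
  by_cases hij : i = j
  · subst hij
    have hb : zs b * zs b' = -1 := by
      have : b ≠ b' := fun e => hne (by rw [e])
      cases b <;> cases b' <;> simp_all [zs]
    have h1 : ∀ a : Fin m, vv C i b a * vv C i b' a = -1 + 2 * (if i = a.succ then 1 else 0) := by
      intro a
      unfold vv
      split_ifs with h
      · norm_num
      · have h2 : Cn C i a.succ * Cn C i a.succ = 1 := by
          rcases Cn_pm C hpm i a.succ h with h2 | h2 <;> rw [h2] <;> norm_num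
        calc zs b * Cn C i a.succ * (zs b' * Cn C i a.succ)
            = (zs b * zs b') * (Cn C i a.succ * Cn C i a.succ) := by ring
          _ = _ := by rw [hb, h2]; norm_num
    rw [Finset.sum_congr rfl (fun a _ => h1 a), Finset.sum_add_distrib, ← Finset.mul_sum]
    have h3 : ∑ a : Fin m, (if i = a.succ then (1 : ℤ) else 0) ≤ 1 := by
      rw [Finset.sum_boole]
      have : (Finset.univ.filter (fun a : Fin m => i = a.succ)).card ≤ 1 := by
        rw [Finset.card_le_one]
        intro a ha a' ha'
        have e1 := (Finset.mem_filter.mp ha).2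
        have e2 := (Finset.mem_filter.mp ha').2
        exact Fin.succ_injective _ (e1.symm.trans e2)
      exact_mod_cast this
    simp only [Finset.sum_const, Finset.card_univ, Fintype.card_fin, nsmul_eq_mul]
    have : (2 : ℤ) ≤ m := by exact_mod_cast hm
    linarith
  · -- different rows
    have horth := Cn_orth C hpm hC i j hij
    rw [Fin.sum_univ_succ] at horth
    -- expansion
    have h1 : ∀ a : Fin m, vv C i b a * vv C j b' a
        = zs b * zs b' * (Cn C i a.succ * Cn C j a.succ)
          + (if i = a.succ then zs b' * Cn C j a.succ else 0)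
          + (if j = a.succ then zs b * Cn C i a.succ else 0) := by
      intro a
      unfold vv
      by_cases h2 : i = a.succ
      · have h3 : j ≠ a.succ := fun e => hij (h2.trans e.symm)
        rw [if_pos h2, if_neg h3, if_pos h2, if_neg h3, h2, Cn_diag C hd]; ring
      · by_cases h3 : j = a.succ
        · rw [if_neg h2, if_pos h3, if_neg h2, if_pos h3, h3, Cn_diag C hd]; ring
        · rw [if_neg h2, if_neg h3, if_neg h2, if_neg h3]; ring
    rw [Finset.sum_congr rfl (fun a _ => h1 a), Finset.sum_add_distrib, Finset.sum_add_distrib,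
      ← Finset.mul_sum]
    have hS : ∑ a : Fin m, Cn C i a.succ * Cn C j a.succ = -(Cn C i 0 * Cn C j 0) := by linarith
    rw [hS]
    have hz0 : Cn C 0 0 = 0 := Cn_diag C hd 0
    rcases eq_or_ne i 0 with rfl | hi0
    · obtain ⟨j', rfl⟩ := Fin.exists_succ_eq.mpr (fun e => hij e.symm : j ≠ 0)
      rw [hz0]
      have g1 : ∑ a : Fin m, (if (0 : Fin (m + 1)) = a.succ then zs b' * Cn C j'.succ a.succ else 0) = 0 := by
        refine Finset.sum_eq_zero (fun a _ => ?_)
        rw [if_neg (Fin.succ_ne_zero a).symm]
      have g2 : ∑ a : Fin m, (if j'.succ = a.succ then zs b * Cn C 0 a.succ else 0)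
          = zs b := by
        have : ∀ a : Fin m, (if j'.succ = a.succ then zs b * Cn C 0 a.succ else 0)
            = (if j' = a then zs b else 0) := by
          intro a
          rw [Cn_zero C hpm a]
          by_cases e : j' = a
          · simp [e]
          · have : j'.succ ≠ a.succ := fun e' => e (Fin.succ_injective _ e')
            simp [e]
        rw [Finset.sum_congr rfl (fun a _ => this a)]
        simp
      rw [g1, g2]
      rcases zs_pm b with h | h <;> rw [h] <;> norm_num
    · obtain ⟨i', rfl⟩ := Fin.exists_succ_eq.mpr hi0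
      have g1 : ∑ a : Fin m, (if i'.succ = a.succ then zs b' * Cn C j a.succ else 0)
          = zs b' * Cn C j i'.succ := by
        have : ∀ a : Fin m, (if i'.succ = a.succ then zs b' * Cn C j a.succ else 0)
            = (if i' = a then zs b' * Cn C j i'.succ else 0) := by
          intro a
          by_cases e : i' = a
          · simp [e]
          · have : i'.succ ≠ a.succ := fun e' => e (Fin.succ_injective _ e')
            simp [e]
        rw [Finset.sum_congr rfl (fun a _ => this a)]
        simp
      rw [g1]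
      rcases eq_or_ne j 0 with rfl | hj0
      · have g2 : ∑ a : Fin m, (if (0 : Fin (m + 1)) = a.succ then zs b * Cn C i'.succ a.succ else 0)
            = 0 := by
          refine Finset.sum_eq_zero (fun a _ => ?_)
          rw [if_neg (Fin.succ_ne_zero a).symm]
        rw [g2, hz0, Cn_zero C hpm i']
        rcases zs_pm b' with h | h <;> rw [h] <;> norm_num
      · obtain ⟨j', rfl⟩ := Fin.exists_succ_eq.mpr hj0
        have g2 : ∑ a : Fin m, (if j'.succ = a.succ then zs b * Cn C i'.succ a.succ else 0)
            = zs b * Cn C i'.succ j'.succ := by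
          have : ∀ a : Fin m, (if j'.succ = a.succ then zs b * Cn C i'.succ a.succ else 0)
              = (if j' = a then zs b * Cn C i'.succ j'.succ else 0) := by
            intro a
            by_cases e : j' = a
            · simp [e]
            · have : j'.succ ≠ a.succ := fun e' => e (Fin.succ_injective _ e')
              simp [e]
          rw [Finset.sum_congr rfl (fun a _ => this a)]
          simp
        rw [g2, Cn_symm C hsymm i'.succ 0, Cn_symm C hsymm j'.succ 0, Cn_zero C hpm i',
          Cn_zero C hpm j', Cn_symm C hsymm j'.succ i'.succ]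
        rcases zs_pm b with h | h <;> rcases zs_pm b' with h' | h' <;>
          rcases Cn_pm C hpm i'.succ j'.succ hij with h'' | h'' <;> rw [h, h', h''] <;> norm_num

include hsymm hd hpm hC in
lemma word_dist (hm : 2 ≤ m) (p q : Fin (m + 1) × Bool) (hne : p ≠ q) :
    m ≤ 2 * hammingDist (word C p) (word C q) + 1 := by
  classical
  have h1 := vv_ip C hsymm hd hpm hC hm p.1 q.1 p.2 q.2 hne
  have h2 : ∀ a : Fin m, vv C p.1 p.2 a * vv C q.1 q.2 a
      = 1 - 2 * (if word C p a ≠ word C q a then 1 else 0) := by
    intro a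
    unfold word
    rcases vv_pm C hd hpm p.1 p.2 a with g1 | g1 <;>
      rcases vv_pm C hd hpm q.1 q.2 a with g2 | g2 <;> simp [g1, g2]
  rw [Finset.sum_congr rfl (fun a _ => h2 a), Finset.sum_sub_distrib, ← Finset.mul_sum,
    Finset.sum_boole] at h1
  simp only [Finset.sum_const, Finset.card_univ, Fintype.card_fin, nsmul_eq_mul, mul_one] at h1
  unfold hammingDist
  have h3 : (m : ℤ) ≤ 2 * ((Finset.univ.filter (fun a : Fin m => word C p a ≠ word C q a)).card : ℤ) + 1 := by
    linarith
  exact_mod_cast h3

include hsymm hd hpm hC in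
theorem lower (hm : 2 ≤ m) :
    ∃ code : Finset (Fin m → Bool),
      (∀ x ∈ code, ∀ y ∈ code, x ≠ y → (m - 1) / 2 ≤ hammingDist x y) ∧
      code.card = 2 * (m + 1) := by
  classical
  refine ⟨Finset.univ.image (word C), ?_, ?_⟩
  · intro x hx y hy hxy
    obtain ⟨p, _, rfl⟩ := Finset.mem_image.mp hx
    obtain ⟨q, _, rfl⟩ := Finset.mem_image.mp hy
    have hpq : p ≠ q := fun e => hxy (by rw [e])
    have := word_dist C hsymm hd hpm hC hm p q hpq
    omega
  · rw [Finset.card_image_of_injective]
    · simp; ring
    · intro p q hpq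
      by_contra hne
      have := word_dist C hsymm hd hpm hC hm p q hne
      rw [hpq, hammingDist_self] at this
      omega

end

end Pool.Agent.W_MP_7483c9_co
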