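import Pool.Agent.W_MP_7483c9_co.Moments

set_option autoImplicit false
set_option linter.unusedSectionVars false
set_option linter.unusedVariables false
set_option linter.unusedSimpArgs false

namespace Pool.Agent.W_MP_7483c9_co

open Finset

variable {ι : Type*} [Fintype ι] [DecidableEq ι] {N : ℕ}

namespace Sys

variable {u : ι → Fin N → ℝ} (h : Sys u)

include h

lemma C4_le (j : ι) (β : ℝ) (hβ : ∀ k, c u j k ≤ β) : C4 u j ≤ β ^ 2 * C2 u j := by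
  unfold C4 C2
  rw [Finset.mul_sum]
  refine Finset.sum_le_sum (fun k _ => ?_)
  have h0 := h.c_nonneg j k
  have h1 : c u j k ^ 2 ≤ β ^ 2 := pow_le_pow_left₀ h0 (hβ k) 2
  have : c u j k ^ 4 = c u j k ^ 2 * c u j k ^ 2 := by ring
  rw [this]
  exact mul_le_mul_of_nonneg_right h1 (sq_nonneg _)

lemma C4_le_sq (j : ι) : C4 u j ≤ C2 u j ^ 2 := by
  unfold C4 C2
  have : ∀ k, c u j k ^ 4 = (c u j k ^ 2) ^ 2 := by intro k; ring
  rw [Finset.sum_congr rfl (fun k _ => this k)]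
  exact Finset.sum_sq_le_sq_sum_of_nonneg (fun k _ => sq_nonneg _)

/-- the potential of a row -/
noncomputable def _root_.Pool.Agent.W_MP_7483c9_co.Psi (u : ι → Fin N → ℝ) (j : ι) : ℝ :=
  (C2 u j ^ 2 - C4 u j) + N * (nsq (Z u j) + T u j)

lemma Psi_nonneg (j : ι) : 0 ≤ Psi u j := by
  unfold Psi
  have h1 := h.C4_le_sq j
  have h2 := h.T_nonneg j
  have h3 := nsq_nonneg (Z u j)
  have h4 : (0 : ℝ) ≤ N := Nat.cast_nonneg _
  have : 0 ≤ (N : ℝ) * (nsq (Z u j) + T u j) := mul_nonneg h4 (by linarith)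
  linarith

lemma Psi_ge (j : ι) (β s P : ℝ) (hβ : ∀ k, c u j k ≤ β) (hs : 0 ≤ s) (hβs : β ^ 2 ≤ s)
    (hN : 1 ≤ (N : ℝ))
    (hP1 : P ≤ s * (s - β ^ 2)) (hP2 : P ≤ (N : ℝ) * (N - 1) * (N * (N - 1) - s)) :
    P ≤ Psi u j := by
  have h1 := h.C4_le j β hβ
  have h2 := h.row_id j
  have hC1 := h.C1_nonneg j
  have hC2 := h.C2_nonneg j
  have h3 := nsq_nonneg (Z u j)
  have h4 := h.T_nonneg j
  have h5 := h.C4_le_sq j
  unfold Psi
  rcases le_or_gt s (C2 u j) with hc | hc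
  · have e1 : s * (s - β ^ 2) ≤ C2 u j * (C2 u j - β ^ 2) := by
      have : 0 ≤ s - β ^ 2 := by linarith
      nlinarith
    have e2 : 0 ≤ (N : ℝ) * (nsq (Z u j) + T u j) := mul_nonneg (by linarith) (by linarith)
    nlinarith
  · have e1 : ((N : ℝ) - 1) * (N * (N - 1) - s) ≤ nsq (Z u j) + T u j := by
      rw [h2]
      have : 0 ≤ ((N : ℝ) - 1) * (s - C2 u j + 2 * C1 u j) :=
        mul_nonneg (by linarith) (by linarith)
      nlinarith [sq_nonneg (C1 u j)]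
    have e2 : (N : ℝ) * (N - 1) * (N * (N - 1) - s) ≤ N * (nsq (Z u j) + T u j) := by
      have := mul_le_mul_of_nonneg_left e1 (show (0 : ℝ) ≤ N by linarith)
      linarith
    linarith

/-- total row energy for `M = 2N+3` -/
lemma sum_row (hM : (Fintype.card ι : ℝ) = 2 * N + 3) (hN : 1 ≤ (N : ℝ)) :
    ∑ i, (nsq (Z u i) + T u i) ≤ (2 * (N : ℝ) + 3) * (7 * N ^ 2 + 16 * N + 2) := by
  have h1 := h.sum_C2_ge
  have h2 := h.sum_C1_sq
  have h3 := h.nsq_sg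
  have h4 := nsq_nonneg (sg u)
  rw [Finset.sum_congr rfl (fun i _ => h.row_id i), Finset.sum_add_distrib, ← Finset.mul_sum,
    Finset.sum_sub_distrib, Finset.sum_add_distrib]
  simp only [← Finset.mul_sum]
  simp only [Finset.sum_const, Finset.card_univ, nsmul_eq_mul]
  rw [hM] at h1 h2 h3 ⊢
  set S1 := ∑ i, C1 u i with hS1
  set S2 := ∑ i, C2 u i with hS2
  set q := nsq (sg u) with hq
  have e1 : S1 = ((N : ℝ) - 1) * (2 * N + 3) + (2 * N + 3) ^ 2 - q := by linarith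
  have e3 : 0 ≤ ((N : ℝ) - 1) * (S2 - ((2 * (N : ℝ) + 3) * (N ^ 2 + 7 * N + 2) - 2 * q)) := by
    refine mul_nonneg (by linarith) ?_
    rw [e1] at h1
    nlinarith
  rw [e1] at h1 ⊢
  nlinarith

lemma sum_sq_a (hM : (Fintype.card ι : ℝ) = 2 * N + 3) (hN : 1 ≤ (N : ℝ)) :
    ∑ i, ((N : ℝ) - 1 + C1 u i) ^ 2 ≤ (2 * (N : ℝ) + 3) * (4 * N + 1) ^ 2 := by
  have h2 := h.sum_C1_sq
  have h3 := h.nsq_sg
  have h4 := nsq_nonneg (sg u)
  have e : ∀ i, ((N : ℝ) - 1 + C1 u i) ^ 2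
      = ((N : ℝ) - 1) ^ 2 + 2 * ((N : ℝ) - 1) * C1 u i + C1 u i ^ 2 := by intro i; ring
  rw [Finset.sum_congr rfl (fun i _ => e i), Finset.sum_add_distrib, Finset.sum_add_distrib,
    ← Finset.mul_sum]
  simp only [Finset.sum_const, Finset.card_univ, nsmul_eq_mul]
  rw [hM] at h2 h3 ⊢
  set S1 := ∑ i, C1 u i with hS1
  set q := nsq (sg u) with hq
  have e1 : S1 = ((N : ℝ) - 1) * (2 * N + 3) + (2 * N + 3) ^ 2 - q := by linarith
  rw [e1]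
  nlinarith

lemma sum_Psi (hM : (Fintype.card ι : ℝ) = 2 * N + 3) (hN : 1 ≤ (N : ℝ)) :
    ∑ j, Psi u j ≤ 2 * (2 * (N : ℝ) + 3) ^ 2 * (4 * N + 1) ^ 2
      + (2 * (4 * N + 1) + N) * ((2 * (N : ℝ) + 3) * (7 * N ^ 2 + 16 * N + 2)) := by
  have hN' : 1 ≤ N := by exact_mod_cast hN
  have h1 := h.sum_C2_sq_sub
  have h2 : ∑ i, ∑ k ∈ Finset.univ.erase i, CC u i k ^ 2
      ≤ ∑ i, (2 * (Fintype.card ι : ℝ) * ((N : ℝ) - 1 + C1 u i) ^ 2
      + 2 * (nsq (Z u i) * (2 * ((N : ℝ) - 1) + Fintype.card ι))) :=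
    Finset.sum_le_sum (fun i _ => h.sum_CC_sq i hN')
  rw [Finset.sum_add_distrib, ← Finset.mul_sum, ← Finset.mul_sum, ← Finset.sum_mul] at h2
  have h3 := h.sum_sq_a hM hN
  have h4 := h.sum_row hM hN
  rw [Finset.sum_add_distrib] at h4
  have h5 : 0 ≤ ∑ i, T u i := Finset.sum_nonneg (fun i _ => h.T_nonneg i)
  have h6 : ∑ j, Psi u j = ∑ j, (C2 u j ^ 2 - C4 u j)
      + N * (∑ i, nsq (Z u i) + ∑ i, T u i) := by
    unfold Psi
    rw [Finset.sum_add_distrib, ← Finset.mul_sum, Finset.sum_add_distrib]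
  rw [h6]
  rw [hM] at h2
  have e1 := mul_le_mul_of_nonneg_left h3 (show (0 : ℝ) ≤ 2 * (2 * N + 3) by linarith)
  have e2 := mul_le_mul_of_nonneg_left h4 (show (0 : ℝ) ≤ 2 * (4 * N + 1) + N by linarith)
  have e3 : 0 ≤ (2 * (4 * (N : ℝ) + 1)) * ∑ i, T u i := mul_nonneg (by linarith) h5
  nlinarith

/-- few bad rows -/
lemma card_bad (hM : (Fintype.card ι : ℝ) = 2 * N + 3) (hN : (10 : ℝ) ^ 8 ≤ N)
    (B : Finset ι) (hB : ∀ j ∈ B, ∀ k, c u j k ≤ (N : ℝ) + 1 - 2 * 3500) :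
    25 * (B.card : ℝ) ≤ N := by
  have h1N : (1 : ℝ) ≤ N := by linarith
  have h1 := h.sum_Psi hM h1N
  have n0 : (0 : ℝ) ≤ N := by linarith
  have n2 : (10 : ℝ) ^ 8 * N ≤ (N : ℝ) ^ 2 := by nlinarith
  have n3 : (10 : ℝ) ^ 8 * (N : ℝ) ^ 2 ≤ (N : ℝ) ^ 3 := by nlinarith [sq_nonneg (N : ℝ)]
  have n4 : (10 : ℝ) ^ 8 * (N : ℝ) ^ 3 ≤ (N : ℝ) ^ 4 := by
    have : (0 : ℝ) ≤ (N : ℝ) ^ 3 := by positivity
    nlinarith
  have h2 : ∀ j ∈ B, 6900 * (N : ℝ) ^ 3 ≤ Psi u j := by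
    intro j hj
    refine h.Psi_ge j ((N : ℝ) + 1 - 2 * 3500) (((N : ℝ) - 3500) ^ 2) _ (hB j hj) (sq_nonneg _)
      ?_ h1N ?_ ?_
    · nlinarith
    · nlinarith
    · nlinarith
  have h3 : (B.card : ℝ) * (6900 * (N : ℝ) ^ 3) ≤ ∑ j ∈ B, Psi u j := by
    have := Finset.sum_le_sum h2
    simpa [Finset.sum_const, nsmul_eq_mul] using this
  have h4 : ∑ j ∈ B, Psi u j ≤ ∑ j, Psi u j :=
    Finset.sum_le_sum_of_subset_of_nonneg (Finset.subset_univ _) (fun j _ _ => h.Psi_nonneg j)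
  have h5 : (B.card : ℝ) * (6900 * (N : ℝ) ^ 3) ≤ 276 * (N : ℝ) ^ 4 := by
    nlinarith
  have h6 : (0 : ℝ) < (N : ℝ) ^ 3 := by positivity
  have h7 : (25 * (B.card : ℝ)) * (276 * (N : ℝ) ^ 3) ≤ (N : ℝ) * (276 * (N : ℝ) ^ 3) := by
    nlinarith
  exact le_of_mul_le_mul_right h7 (by positivity)

end Sys

end Pool.Agent.W_MP_7483c9_co
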