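import Mathlib

set_option autoImplicit false
set_option linter.unusedSectionVars false
set_option linter.unusedVariables false
set_option linter.unusedSimpArgs false

namespace Pool.Agent.W_MP_7483c9_co

open Finset

variable {ι : Type*} [Fintype ι] [DecidableEq ι] {N : ℕ}

/-- A family of `±1` vectors of length `N` with pairwise inner products at most `1`
and congruent to `1` modulo `4`. -/
structure Sys (u : ι → Fin N → ℝ) : Prop where
  pm : ∀ i a, u i a = 1 ∨ u i a = -1
  le_one : ∀ i j, i ≠ j → ∑ a, u i a * u j a ≤ 1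
  par : ∀ i j, ∃ b : ℤ, 1 - ∑ a, u i a * u j a = 4 * b

/-- Gram matrix. -/
def G (u : ι → Fin N → ℝ) (i j : ι) : ℝ := ∑ a, u i a * u j a

/-- Shifted distances `c_ij = 1 - ⟨u_i,u_j⟩` for `i ≠ j`, `c_ii = 0`. -/
def c (u : ι → Fin N → ℝ) (i j : ι) : ℝ := if i = j then 0 else 1 - G u i j

def C1 (u : ι → Fin N → ℝ) (i : ι) : ℝ := ∑ j, c u i j
def C2 (u : ι → Fin N → ℝ) (i : ι) : ℝ := ∑ j, c u i j ^ 2
def C4 (u : ι → Fin N → ℝ) (i : ι) : ℝ := ∑ j, c u i j ^ 4
def T (u : ι → Fin N → ℝ) (i : ι) : ℝ := ∑ j, ∑ k, c u i j * c u i k * c u j k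
def CC (u : ι → Fin N → ℝ) (i k : ι) : ℝ := ∑ j, c u i j * c u j k

/-- inner product and squared norm on `Fin N → ℝ` -/
def ip (x y : Fin N → ℝ) : ℝ := ∑ a, x a * y a
def nsq (x : Fin N → ℝ) : ℝ := ∑ a, x a ^ 2

def sg (u : ι → Fin N → ℝ) (a : Fin N) : ℝ := ∑ i, u i a
def Z (u : ι → Fin N → ℝ) (i : ι) (a : Fin N) : ℝ :=
  ((N : ℝ) - 1) * u i a + ∑ j, c u i j * u j a

omit [Fintype ι] in
lemma c_self (u : ι → Fin N → ℝ) (i : ι) : c u i i = 0 := by simp [c]

omit [Fintype ι] [DecidableEq ι] in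
lemma G_comm (u : ι → Fin N → ℝ) (i j : ι) : G u i j = G u j i := by
  unfold G; exact Finset.sum_congr rfl (fun a _ => by ring)

omit [Fintype ι] in
lemma c_comm (u : ι → Fin N → ℝ) (i j : ι) : c u i j = c u j i := by
  unfold c
  by_cases h : i = j
  · simp [h]
  · have h' : j ≠ i := fun h'' => h h''.symm
    simp only [h, h', if_false, G_comm u i j]

lemma nsq_nonneg (x : Fin N → ℝ) : 0 ≤ nsq x := Finset.sum_nonneg (fun a _ => sq_nonneg _)

lemma ip_self (x : Fin N → ℝ) : ip x x = nsq x := by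
  unfold ip nsq; exact Finset.sum_congr rfl (fun a _ => by ring)

lemma ip_sq_le (x y : Fin N → ℝ) : (ip x y) ^ 2 ≤ nsq x * nsq y := by
  unfold ip nsq; exact Finset.sum_mul_sq_le_sq_mul_sq _ _ _

lemma ip_comm (x y : Fin N → ℝ) : ip x y = ip y x := by
  unfold ip; exact Finset.sum_congr rfl (fun a _ => by ring)

namespace Sys

variable {u : ι → Fin N → ℝ} (h : Sys u)

include h

lemma sqone (i : ι) (a : Fin N) : u i a * u i a = 1 := by
  rcases h.pm i a with h1 | h1 <;> rw [h1] <;> norm_num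

lemma G_self (i : ι) : G u i i = N := by
  unfold G
  rw [Finset.sum_congr rfl (fun a _ => h.sqone i a)]
  simp

lemma G_eq (i j : ι) : G u i j = ((N : ℝ) - 1) * (if i = j then 1 else 0) + 1 - c u i j := by
  unfold c
  by_cases hij : i = j
  · subst hij
    rw [h.G_self]; simp
  · simp [hij]

lemma c_nonneg (i j : ι) : 0 ≤ c u i j := by
  unfold c
  by_cases hij : i = j
  · simp [hij]
  · have := h.le_one i j hij
    simp only [hij, if_false]
    unfold G; linarith

lemma gram_expand (x y : ι → ℝ) :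
    ∑ a, (∑ j, x j * u j a) * (∑ k, y k * u k a)
      = ((N : ℝ) - 1) * ∑ j, x j * y j + (∑ j, x j) * (∑ k, y k)
        - ∑ j, ∑ k, x j * y k * c u j k := by
  have h1 : ∑ a, (∑ j, x j * u j a) * (∑ k, y k * u k a)
      = ∑ j, ∑ k, x j * y k * G u j k := by
    simp_rw [Finset.sum_mul_sum]
    rw [Finset.sum_comm]
    refine Finset.sum_congr rfl (fun j _ => ?_)
    rw [Finset.sum_comm]
    refine Finset.sum_congr rfl (fun k _ => ?_)
    unfold G
    rw [Finset.mul_sum]
    exact Finset.sum_congr rfl (fun a _ => by ring)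
  rw [h1]
  have h2 : ∀ j, ∑ k, x j * y k * G u j k
      = ((N : ℝ) - 1) * (x j * y j) + x j * (∑ k, y k) - ∑ k, x j * y k * c u j k := by
    intro j
    have : ∀ k, x j * y k * G u j k
        = ((N : ℝ) - 1) * (if j = k then x j * y k else 0) + x j * y k - x j * y k * c u j k := by
      intro k
      rw [h.G_eq]
      by_cases hjk : j = k
      · simp [hjk]; ring
      · simp [hjk]; ring
    rw [Finset.sum_congr rfl (fun k _ => this k), Finset.sum_sub_distrib, Finset.sum_add_distrib,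
      ← Finset.mul_sum, ← Finset.mul_sum]
    simp
  rw [Finset.sum_congr rfl (fun j _ => h2 j), Finset.sum_sub_distrib, Finset.sum_add_distrib,
      ← Finset.mul_sum, ← Finset.sum_mul]

/-- Lemma A : `∑ G² ≥ N M²`. -/
lemma lemA : (N : ℝ) * (Fintype.card ι : ℝ) ^ 2 ≤ ∑ i, ∑ j, G u i j ^ 2 := by
  have h1 : ∑ i, ∑ j, G u i j ^ 2 = ∑ a, ∑ b, (∑ i, u i a * u i b) ^ 2 := by
    have e1 : ∀ i j, G u i j ^ 2 = ∑ a, ∑ b, (u i a * u i b) * (u j a * u j b) := by
      intro i j
      unfold G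
      rw [sq, Finset.sum_mul_sum]
      refine Finset.sum_congr rfl (fun a _ => Finset.sum_congr rfl (fun b _ => by ring))
    have e2 : ∀ a b, (∑ i, u i a * u i b) ^ 2 = ∑ i, ∑ j, (u i a * u i b) * (u j a * u j b) := by
      intro a b
      rw [sq, Finset.sum_mul_sum]
    simp_rw [e1, e2]
    -- ∑ i ∑ j ∑ a ∑ b = ∑ a ∑ b ∑ i ∑ j
    have s1 : ∀ i, ∑ j, ∑ a, ∑ b, (u i a * u i b) * (u j a * u j b)
        = ∑ a, ∑ b, ∑ j, (u i a * u i b) * (u j a * u j b) := by
      intro i
      rw [Finset.sum_comm]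
      refine Finset.sum_congr rfl (fun a _ => ?_)
      rw [Finset.sum_comm]
    rw [Finset.sum_congr rfl (fun i _ => s1 i), Finset.sum_comm]
    refine Finset.sum_congr rfl (fun a _ => ?_)
    rw [Finset.sum_comm]
  rw [h1]
  have h2 : ∀ a ∈ (Finset.univ : Finset (Fin N)),
      ((Fintype.card ι : ℝ)) ^ 2 ≤ ∑ b, (∑ i, u i a * u i b) ^ 2 := by
    intro a _
    have h3 : (∑ i, u i a * u i a) ^ 2 ≤ ∑ b, (∑ i, u i a * u i b) ^ 2 :=
      Finset.single_le_sum (f := fun b => (∑ i, u i a * u i b) ^ 2)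
        (fun b _ => sq_nonneg _) (Finset.mem_univ a)
    have h4 : ∑ i, u i a * u i a = (Fintype.card ι : ℝ) := by
      rw [Finset.sum_congr rfl (fun i _ => h.sqone i a)]
      simp
    rw [h4] at h3
    exact h3
  calc (N : ℝ) * (Fintype.card ι : ℝ) ^ 2
      = ∑ _a : Fin N, ((Fintype.card ι : ℝ)) ^ 2 := by simp
    _ ≤ _ := Finset.sum_le_sum h2

/-- Lemma F' : sign-restricted Bessel inequality. -/
lemma lemF (S : Finset ι) (x : Fin N → ℝ)
    (hS : (∀ k ∈ S, ip x (u k) ≤ 0) ∨ (∀ k ∈ S, 0 ≤ ip x (u k))) :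
    ∑ k ∈ S, (ip x (u k)) ^ 2 ≤ nsq x * ((N : ℝ) - 1 + S.card) := by
  classical
  set y : ι → ℝ := fun k => if k ∈ S then ip x (u k) else 0 with hy
  set V : Fin N → ℝ := fun a => ∑ k, y k * u k a with hV
  set Q : ℝ := ∑ k ∈ S, (ip x (u k)) ^ 2 with hQ
  have hQ0 : 0 ≤ Q := Finset.sum_nonneg (fun k _ => sq_nonneg _)
  have e1 : ∑ k, y k * y k = Q := by
    rw [hQ, ← Finset.sum_filter_add_sum_filter_not Finset.univ (fun k => k ∈ S)]
    have : ∑ k ∈ Finset.univ.filter (fun k => ¬ k ∈ S), y k * y k = 0 := by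
      refine Finset.sum_eq_zero (fun k hk => ?_)
      have hk' : k ∉ S := by simpa using hk
      simp [hy, hk']
    rw [this, add_zero]
    have hf : Finset.univ.filter (fun k => k ∈ S) = S := by ext k; simp
    rw [hf]
    refine Finset.sum_congr rfl (fun k hk => ?_)
    simp [hy, hk, sq]
  have e2 : ∑ k, y k = ∑ k ∈ S, ip x (u k) := by
    simp [hy]
  have e3 : nsq V = ((N : ℝ) - 1) * Q + (∑ k, y k) ^ 2 - ∑ j, ∑ k, y j * y k * c u j k := by
    have := h.gram_expand y y
    rw [e1] at this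
    rw [sq (∑ k, y k), ← this, ← ip_self]
    rfl
  have e4 : 0 ≤ ∑ j, ∑ k, y j * y k * c u j k := by
    refine Finset.sum_nonneg (fun j _ => Finset.sum_nonneg (fun k _ => ?_))
    refine mul_nonneg ?_ (h.c_nonneg j k)
    simp only [hy]
    by_cases hj : j ∈ S
    · by_cases hk : k ∈ S
      · simp only [hj, hk, if_true]
        rcases hS with hS | hS
        · exact mul_nonneg_of_nonpos_of_nonpos (hS j hj) (hS k hk)
        · exact mul_nonneg (hS j hj) (hS k hk)
      · simp [hk]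
    · simp [hj]
  have e5 : (∑ k, y k) ^ 2 ≤ S.card * Q := by
    rw [e2, hQ]
    exact sq_sum_le_card_mul_sum_sq
  have e6 : ip x V = Q := by
    unfold ip
    simp only [hV]
    have : ∀ a, x a * ∑ k, y k * u k a = ∑ k, y k * (x a * u k a) := by
      intro a
      rw [Finset.mul_sum]
      exact Finset.sum_congr rfl (fun k _ => by ring)
    simp_rw [this]
    rw [Finset.sum_comm, ← e1]
    refine Finset.sum_congr rfl (fun k _ => ?_)
    rw [← Finset.mul_sum]
    by_cases hk : k ∈ S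
    · simp [hy, hk, ip]
    · simp [hy, hk]
  have e7 : Q ^ 2 ≤ nsq x * nsq V := by rw [← e6]; exact ip_sq_le x V
  have e8 : nsq V ≤ ((N : ℝ) - 1 + S.card) * Q := by rw [e3]; nlinarith
  rcases eq_or_lt_of_le hQ0 with h0 | h0
  · rw [← h0]
    have hx := nsq_nonneg x
    rcases Nat.eq_zero_or_pos N with hN | hN
    · have : nsq x = 0 := by
        unfold nsq
        subst hN
        simp
      rw [this]; simp
    · have : (1 : ℝ) ≤ N := by exact_mod_cast hN
      have hc : (0 : ℝ) ≤ S.card := Nat.cast_nonneg _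
      exact mul_nonneg hx (by linarith)
  · have : Q * Q ≤ (nsq x * ((N : ℝ) - 1 + S.card)) * Q := by
      calc Q * Q = Q ^ 2 := by ring
        _ ≤ nsq x * nsq V := e7
        _ ≤ nsq x * (((N : ℝ) - 1 + S.card) * Q) :=
            mul_le_mul_of_nonneg_left e8 (nsq_nonneg x)
        _ = _ := by ring
    exact le_of_mul_le_mul_right this h0

/-- full Bessel-type inequality -/
lemma bessel (x : Fin N → ℝ) :
    ∑ k, (ip x (u k)) ^ 2 ≤ nsq x * (2 * ((N : ℝ) - 1) + Fintype.card ι) := by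
  classical
  rw [← Finset.sum_filter_add_sum_filter_not Finset.univ (fun k => ip x (u k) ≤ 0)]
  have h1 := h.lemF (Finset.univ.filter (fun k => ip x (u k) ≤ 0)) x
    (Or.inl (fun k hk => by simpa using hk))
  have h2 := h.lemF (Finset.univ.filter (fun k => ¬ ip x (u k) ≤ 0)) x
    (Or.inr (fun k hk => by
      have : ¬ ip x (u k) ≤ 0 := by simpa using hk
      linarith))
  have h3 : ((Finset.univ.filter (fun k => ip x (u k) ≤ 0)).card : ℝ)
      + ((Finset.univ.filter (fun k => ¬ ip x (u k) ≤ 0)).card : ℝ) = Fintype.card ι := by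
    have := Finset.card_filter_add_card_filter_not (s := (Finset.univ : Finset ι))
      (fun k => ip x (u k) ≤ 0)
    rw [Finset.card_univ] at this
    exact_mod_cast this
  have : nsq x * (2 * ((N : ℝ) - 1) + Fintype.card ι)
      = nsq x * ((N : ℝ) - 1 + (Finset.univ.filter (fun k => ip x (u k) ≤ 0)).card)
        + nsq x * ((N : ℝ) - 1 + (Finset.univ.filter (fun k => ¬ ip x (u k) ≤ 0)).card) := by
    rw [← h3]; ring
  rw [this]
  exact add_le_add h1 h2

end Sys

end Pool.Agent.W_MP_7483c9_co
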