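import Pool.Agent.W_MP_7483c9_co.Good

set_option autoImplicit false
set_option linter.unusedSectionVars false
set_option linter.unusedVariables false
set_option linter.unusedSimpArgs false

namespace Pool.Agent.W_MP_7483c9_co

open Finset

variable {ι : Type*} [Fintype ι] [DecidableEq ι] {N : ℕ}

/-- the test function -/
def ff (x : ℝ) : ℝ := x * (x - 4)

lemma ff_add {x y : ℝ} (hx : 0 ≤ x) (hy : 0 ≤ y) : ff x + ff y ≤ ff (x + y) := by
  unfold ff; nlinarith [mul_nonneg hx hy]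

lemma ff_nonpos {x : ℝ} (hx : 0 ≤ x) (hx4 : x ≤ 4) : ff x ≤ 0 := by
  unfold ff; nlinarith

def L (u : ι → Fin N → ℝ) (i : ι) : ℝ := ∑ j, ff (c u i j)

lemma L_eq (u : ι → Fin N → ℝ) (i : ι) : L u i = C2 u i - 4 * C1 u i := by
  unfold L C2 C1 ff
  rw [Finset.mul_sum, ← Finset.sum_sub_distrib]
  exact Finset.sum_congr rfl (fun j _ => by ring)

namespace Sys

variable {u : ι → Fin N → ℝ} (h : Sys u)

include h

variable {H : ℝ} (hH : 4 * H + 1 < N) (hH1 : 1 ≤ H)

include hH hH1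

lemma sum_tau (U : Finset ι) (hU : ∀ k ∈ U, Gd u H k) (hUt : ∀ k ∈ U, tau u H k ∈ U)
    (g : ι → ℝ) : ∑ k ∈ U, g (tau u H k) = ∑ k ∈ U, g k := by
  refine Finset.sum_nbij' (fun k => tau u H k) (fun k => tau u H k) hUt hUt
    (fun k hk => h.tau_tau hH hH1 (hU k hk)) (fun k hk => h.tau_tau hH hH1 (hU k hk))
    (fun k hk => rfl)

lemma energy_UU (U : Finset ι) (hU : ∀ k ∈ U, Gd u H k) (hUt : ∀ k ∈ U, tau u H k ∈ U) :
    ∑ i ∈ U, ∑ k ∈ U, (if k = i ∨ k = tau u H i then 0 else ff (c u i k))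
      ≤ ∑ i ∈ U, (4 * U.card + 12 * H * hh u H i ^ 2 + 8 * hh u H i) := by
  classical
  set F : ι → ι → ℝ := fun i k => if k = i ∨ k = tau u H i then 0 else ff (c u i k) with hF
  set p0 : ι → ι → ℝ := fun i k => if k = i ∨ k = tau u H i then 0 else phi u H i k with hp0
  have hne : ∀ i ∈ U, tau u H i ≠ i := fun i hi => h.tau_ne hH hH1 (hU i hi)
  have htt : ∀ i ∈ U, tau u H (tau u H i) = i := fun i hi => h.tau_tau hH hH1 (hU i hi)
  -- four-fold symmetrisation
  have key : ∀ i ∈ U, ∀ k ∈ U, F i k + F i (tau u H k) + F (tau u H i) k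
      + F (tau u H i) (tau u H k) ≤ 16 * (p0 i k ^ 2 - p0 i k) := by
    intro i hi k hk
    by_cases hc : k = i ∨ k = tau u H i
    · have hz : p0 i k = 0 := by simp only [hp0]; rw [if_pos hc]
      rw [hz]
      have z1 : F i k = 0 := by simp only [hF]; rw [if_pos hc]
      have z2 : F i (tau u H k) = 0 := by
        simp only [hF]; rw [if_pos]
        rcases hc with hc | hc
        · right; rw [hc]
        · left; rw [hc, htt i hi]
      have z3 : F (tau u H i) k = 0 := by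
        simp only [hF]; rw [if_pos]
        rcases hc with hc | hc
        · right; rw [htt i hi, hc]
        · left; exact hc
      have z4 : F (tau u H i) (tau u H k) = 0 := by
        simp only [hF]; rw [if_pos]
        rcases hc with hc | hc
        · left; rw [hc]
        · right; rw [hc]
      rw [z1, z2, z3, z4]; norm_num
    · have hc' := hc
      rw [not_or] at hc'
      obtain ⟨h1, h2⟩ := hc'
      have h3 : tau u H k ≠ i := by
        intro e; apply h2; rw [← e, htt k hk]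
      have h4 : tau u H k ≠ tau u H i := by
        intro e; apply h1; rw [← htt k hk, e, htt i hi]
      have z0 : p0 i k = phi u H i k := by simp only [hp0]; rw [if_neg hc]
      have z1 : F i k = ff (c u i k) := by simp only [hF]; rw [if_neg hc]
      have z2 : F i (tau u H k) = ff (c u i (tau u H k)) := by
        simp only [hF]; rw [if_neg]; rw [not_or]; exact ⟨h3, h4⟩
      have z3 : F (tau u H i) k = ff (c u (tau u H i) k) := by
        simp only [hF]; rw [if_neg]; rw [not_or, htt i hi]; exact ⟨h2, h1⟩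
      have z4 : F (tau u H i) (tau u H k) = ff (c u (tau u H i) (tau u H k)) := by
        simp only [hF]; rw [if_neg]; rw [not_or, htt i hi]; exact ⟨h4, h3⟩
      rw [z0, z1, z2, z3, z4]
      have hphi := h.phi_eq hH hH1 (hU i hi) (hU k hk) h1 h2
      have a1 := h.c_nonneg i k
      have a2 := h.c_nonneg i (tau u H k)
      have a3 := h.c_nonneg (tau u H i) k
      have a4 := h.c_nonneg (tau u H i) (tau u H k)
      have b1 := ff_add a1 a2
      have b2 := ff_add (add_nonneg a1 a2) a3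
      have b3 := ff_add (add_nonneg (add_nonneg a1 a2) a3) a4
      rw [← hphi] at b3
      have b4 : ff (4 * (1 - phi u H i k)) = 16 * (phi u H i k ^ 2 - phi u H i k) := by
        unfold ff; ring
      linarith
  have s1 : ∀ i ∈ U, ∑ k ∈ U, F i (tau u H k) = ∑ k ∈ U, F i k := fun i _ =>
    h.sum_tau hH hH1 U hU hUt (fun k => F i k)
  have s2 : ∑ i ∈ U, ∑ k ∈ U, F (tau u H i) k = ∑ i ∈ U, ∑ k ∈ U, F i k :=
    h.sum_tau hH hH1 U hU hUt (fun i => ∑ k ∈ U, F i k)
  have s3 : ∑ i ∈ U, ∑ k ∈ U, F (tau u H i) (tau u H k) = ∑ i ∈ U, ∑ k ∈ U, F i k := by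
    have : ∀ i ∈ U, ∑ k ∈ U, F (tau u H i) (tau u H k) = ∑ k ∈ U, F (tau u H i) k := fun i _ =>
      h.sum_tau hH hH1 U hU hUt (fun k => F (tau u H i) k)
    rw [Finset.sum_congr rfl this, s2]
  have s4 : ∑ i ∈ U, ∑ k ∈ U, F i (tau u H k) = ∑ i ∈ U, ∑ k ∈ U, F i k :=
    Finset.sum_congr rfl s1
  have s5 : ∑ i ∈ U, ∑ k ∈ U, (F i k + F i (tau u H k) + F (tau u H i) k
      + F (tau u H i) (tau u H k)) ≤ ∑ i ∈ U, ∑ k ∈ U, 16 * (p0 i k ^ 2 - p0 i k) :=
    Finset.sum_le_sum (fun i hi => Finset.sum_le_sum (fun k hk => key i hi k hk))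
  have s6 : ∑ i ∈ U, ∑ k ∈ U, (F i k + F i (tau u H k) + F (tau u H i) k
      + F (tau u H i) (tau u H k)) = 4 * ∑ i ∈ U, ∑ k ∈ U, F i k := by
    simp only [Finset.sum_add_distrib]
    rw [s2, s3, s4]; ring
  have s7 : ∑ i ∈ U, ∑ k ∈ U, 16 * (p0 i k ^ 2 - p0 i k)
      = 16 * (∑ i ∈ U, ∑ k ∈ U, p0 i k ^ 2) - 16 * ∑ i ∈ U, ∑ k ∈ U, p0 i k := by
    rw [Finset.mul_sum, Finset.mul_sum, ← Finset.sum_sub_distrib]
    refine Finset.sum_congr rfl (fun i _ => ?_)
    rw [Finset.mul_sum, Finset.mul_sum, ← Finset.sum_sub_distrib]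
    exact Finset.sum_congr rfl (fun k _ => by ring)
  have s8 : ∑ i ∈ U, ∑ k ∈ U, p0 i k ^ 2 ≤ ∑ i ∈ U, ((U.card : ℝ) + 3 * H * hh u H i ^ 2) := by
    refine Finset.sum_le_sum (fun i hi => ?_)
    have := h.sum_phi_sq hH hH1 U hU (hU i hi)
    refine le_trans (le_of_eq ?_) this
    refine Finset.sum_congr rfl (fun k _ => ?_)
    simp only [hp0]
    split_ifs <;> simp
  have s9 : -(2 * ∑ i ∈ U, hh u H i) ≤ ∑ i ∈ U, ∑ k ∈ U, p0 i k := by
    have g0 : 0 ≤ ∑ i ∈ U, ∑ k ∈ U, phi u H i k := by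
      rw [sum_phi]; exact nsq_nonneg _
    have g1 : ∀ i ∈ U, ∑ k ∈ U, p0 i k = ∑ k ∈ U, phi u H i k - 2 * hh u H i := by
      intro i hi
      have g2 : ∀ k ∈ U, p0 i k = phi u H i k - (if k = i then hh u H i else 0)
          - (if k = tau u H i then hh u H i else 0) := by
        intro k hk
        simp only [hp0]
        by_cases e1 : k = i
        · have e2 : k ≠ tau u H i := by rw [e1]; exact (hne i hi).symm
          simp only [e1, true_or, if_true, (hne i hi).symm, if_false]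
          rw [h.phi_self hH hH1 (hU i hi)]; ring
        · by_cases e2 : k = tau u H i
          · simp only [e2, or_true, if_true, hne i hi, if_false]
            rw [h.phi_tau hH hH1 (hU i hi)]; ring
          · simp only [e1, e2, or_self, if_false]; ring
      rw [Finset.sum_congr rfl g2, Finset.sum_sub_distrib, Finset.sum_sub_distrib,
        Finset.sum_ite_eq', Finset.sum_ite_eq', if_pos hi, if_pos (hUt i hi)]
      ring
    rw [Finset.sum_congr rfl g1, Finset.sum_sub_distrib, ← Finset.mul_sum]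
    linarith
  have s10 : ∑ i ∈ U, (4 * (U.card : ℝ) + 12 * H * hh u H i ^ 2 + 8 * hh u H i)
      = 4 * ∑ i ∈ U, ((U.card : ℝ) + 3 * H * hh u H i ^ 2) + 8 * ∑ i ∈ U, hh u H i := by
    rw [Finset.mul_sum, Finset.mul_sum, ← Finset.sum_add_distrib]
    exact Finset.sum_congr rfl (fun i _ => by ring)
  rw [s10]
  rw [s6, s7] at s5
  linarith

/-- matched rows against a set of unmatched rows -/
lemma energy_UB (U B : Finset ι) (hU : ∀ k ∈ U, Gd u H k) (hUt : ∀ k ∈ U, tau u H k ∈ U)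
    (hB : ∀ k ∈ B, ¬ Gd u H k) (X : ι → ℝ)
    (hX : ∀ i ∈ U, ∑ k ∈ B, 2 * (ip (w u H i) (u k) ^ 2 - 1) ≤ X i) :
    ∑ i ∈ U, ∑ k ∈ B, ff (c u i k) ≤ ∑ i ∈ U, X i := by
  have s1 : ∑ i ∈ U, ∑ k ∈ B, ff (c u (tau u H i) k) = ∑ i ∈ U, ∑ k ∈ B, ff (c u i k) :=
    h.sum_tau hH hH1 U hU hUt (fun i => ∑ k ∈ B, ff (c u i k))
  have s2 : ∑ i ∈ U, ∑ k ∈ B, (ff (c u i k) + ff (c u (tau u H i) k))
      ≤ ∑ i ∈ U, 2 * X i := by
    refine Finset.sum_le_sum (fun i hi => ?_)
    have : ∑ k ∈ B, (ff (c u i k) + ff (c u (tau u H i) k))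
        ≤ ∑ k ∈ B, 2 * (2 * (ip (w u H i) (u k) ^ 2 - 1)) := by
      refine Finset.sum_le_sum (fun k hk => ?_)
      have h1 : k ≠ i := by
        intro e; apply hB k hk; rw [e]; exact hU i hi
      have h2 : k ≠ tau u H i := by
        intro e; apply hB k hk; rw [e]; exact h.Gd_tau hH hH1 (hU i hi)
      have b1 := ff_add (h.c_nonneg i k) (h.c_nonneg (tau u H i) k)
      have b2 := h.ip_w_u hH hH1 (hU i hi) h1 h2
      have b3 : c u i k + c u (tau u H i) k = 2 - 2 * ip (w u H i) (u k) := by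
        rw [b2]; ring
      rw [b3] at b1
      have b4 : ff (2 - 2 * ip (w u H i) (u k)) = 2 * (2 * (ip (w u H i) (u k) ^ 2 - 1)) := by
        unfold ff; ring
      linarith
    refine this.trans ?_
    rw [← Finset.mul_sum]
    have := hX i hi
    linarith
  simp only [Finset.sum_add_distrib] at s2
  rw [s1, ← Finset.mul_sum] at s2
  linarith

lemma X_one (B : Finset ι) (hB : ∀ k ∈ B, ¬ Gd u H k) {i : ι} (hi : Gd u H i) :
    ∑ k ∈ B, 2 * (ip (w u H i) (u k) ^ 2 - 1) ≤ 2 * B.card * (hh u H i ^ 2 - 1) := by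
  have : ∀ k ∈ B, 2 * (ip (w u H i) (u k) ^ 2 - 1) ≤ 2 * (hh u H i ^ 2 - 1) := by
    intro k hk
    have h1 : k ≠ i := by
      intro e; apply hB k hk; rw [e]; exact hi
    have h2 : k ≠ tau u H i := by
      intro e; apply hB k hk; rw [e]; exact h.Gd_tau hH hH1 hi
    have b2 := h.ip_w_u hH hH1 hi h1 h2
    have b3 := h.pair_le hH hH1 hi h1 h2
    have b4 := h.c_nonneg i k
    have b5 := h.c_nonneg (tau u H i) k
    have b6 : 1 ≤ hh u H i := by
      rcases h.hh_odd hH hH1 hi with g | g <;> linarith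
    have b7 : -hh u H i ≤ ip (w u H i) (u k) := by rw [b2]; linarith
    have b8 : ip (w u H i) (u k) ≤ hh u H i := by rw [b2]; linarith
    nlinarith
  refine (Finset.sum_le_sum this).trans (le_of_eq ?_)
  simp only [Finset.sum_const, nsmul_eq_mul]; ring

lemma X_two (B : Finset ι) (hB : ∀ k ∈ B, ¬ Gd u H k) {i : ι} (hi : Gd u H i) :
    ∑ k ∈ B, 2 * (ip (w u H i) (u k) ^ 2 - 1) ≤ 2 * hh u H i * ((N : ℝ) - 1 + B.card) := by
  classical
  have h0 := h.lemF (B.filter (fun k => ip (w u H i) (u k) ≤ 0)) (w u H i)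
    (Or.inl (fun k hk => (Finset.mem_filter.mp hk).2))
  rw [h.nsq_w hH hH1 hi] at h0
  have b6 : 1 ≤ hh u H i := by
    rcases h.hh_odd hH hH1 hi with g | g <;> linarith
  have hcard : ((B.filter (fun k => ip (w u H i) (u k) ≤ 0)).card : ℝ) ≤ B.card := by
    exact_mod_cast Finset.card_filter_le _ _
  rw [← Finset.sum_filter_add_sum_filter_not B (fun k => ip (w u H i) (u k) ≤ 0)]
  have h1 : ∑ k ∈ B.filter (fun k => ip (w u H i) (u k) ≤ 0), 2 * (ip (w u H i) (u k) ^ 2 - 1)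
      ≤ 2 * ∑ k ∈ B.filter (fun k => ip (w u H i) (u k) ≤ 0), (ip (w u H i) (u k)) ^ 2 := by
    rw [Finset.mul_sum]
    exact Finset.sum_le_sum (fun k _ => by linarith)
  have h2 : ∑ k ∈ B.filter (fun k => ¬ ip (w u H i) (u k) ≤ 0),
      2 * (ip (w u H i) (u k) ^ 2 - 1) ≤ 0 := by
    refine Finset.sum_nonpos (fun k hk => ?_)
    obtain ⟨hk1, hk2⟩ := Finset.mem_filter.mp hk
    have h1 : k ≠ i := by
      intro e; apply hB k hk1; rw [e]; exact hi
    have h2 : k ≠ tau u H i := by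
      intro e; apply hB k hk1; rw [e]; exact h.Gd_tau hH hH1 hi
    have b2 := h.ip_w_u hH hH1 hi h1 h2
    have b4 := h.c_nonneg i k
    have b5 := h.c_nonneg (tau u H i) k
    have : ip (w u H i) (u k) ≤ 1 := by rw [b2]; linarith
    have h3 : 0 < ip (w u H i) (u k) := lt_of_not_ge hk2
    nlinarith
  have h3 : hh u H i * ((N : ℝ) - 1 + (B.filter (fun k => ip (w u H i) (u k) ≤ 0)).card)
      ≤ hh u H i * ((N : ℝ) - 1 + B.card) :=
    mul_le_mul_of_nonneg_left (by linarith) (by linarith)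
  linarith

end Sys

end Pool.Agent.W_MP_7483c9_co
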