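import Pool.Agent.W_MP_7483c9_co.Energy

set_option autoImplicit false
set_option linter.unusedSectionVars false
set_option linter.unusedVariables false
set_option linter.unusedSimpArgs false

namespace Pool.Agent.W_MP_7483c9_co

open Finset

variable {ι : Type*} [Fintype ι] [DecidableEq ι] {N : ℕ}

namespace Sys

variable {u : ι → Fin N → ℝ} (h : Sys u)

include h

/-- the sum over the unmatched rows -/
lemma bad_rows (hM : (Fintype.card ι : ℝ) = 2 * N + 3) (hN : (10 : ℝ) ^ 8 ≤ N)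
    (B : Finset ι) (hB : 25 * (B.card : ℝ) ≤ N) :
    ∑ k ∈ B, (L u k - ((N : ℝ) ^ 2 - 5 * N - 6)) ≤ 12 * N * B.card + 2 * nsq (sg u) := by
  classical
  have n0 : (1 : ℝ) ≤ N := by linarith
  have hN1 : (0 : ℝ) < (N : ℝ) - 1 := by linarith
  -- negative part
  set r : ι → ℝ := fun k => ip (sg u) (u k) with hr
  have hC1 : ∀ k, C1 u k = 3 * N + 2 - r k := by
    intro k
    have := h.ip_sg k
    rw [hM] at this
    simp only [hr]; linarith
  have rowb : ∀ k ∈ B, ((N : ℝ) - 1) * (L u k - ((N : ℝ) ^ 2 - 5 * N - 6))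
      ≤ (12 * N ^ 2 - 12 * N) + (191 / 100) * (if r k ≤ 0 then r k ^ 2 else 0) := by
    intro k _
    have h1 := h.row_id k
    have h2 := nsq_nonneg (Z u k)
    have h3 := h.T_nonneg k
    have h4 := h.C1_nonneg k
    have h5 : ((N : ℝ) - 1) * (L u k - ((N : ℝ) ^ 2 - 5 * N - 6))
        ≤ ((N : ℝ) - 1) * (4 * N + 6) - 2 * ((N : ℝ) - 1) * C1 u k + C1 u k ^ 2 := by
      rw [L_eq]; nlinarith
    refine h5.trans ?_
    rw [hC1] at h4 ⊢
    split_ifs with hrk
    · -- r ≤ 0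
      have h6 : 0 ≤ (r k + 22 / 10 * N) ^ 2 := sq_nonneg _
      have h7 : -(r k) * (22 / 10 * N) ≤ (r k ^ 2 + (22 / 10 * N) ^ 2) / 2 := by nlinarith
      have h8 : -(r k) * (4 * N + 6) * (22 / 10 * N)
          ≤ (r k ^ 2 + (22 / 10 * N) ^ 2) / 2 * (4 * N + 6) := by nlinarith
      have h9 : (r k ^ 2 + (22 / 10 * N) ^ 2) / 2 * (4 * N + 6)
          ≤ (91 / 100 * r k ^ 2 + (45 / 10) * N ^ 2) * (22 / 10 * N) := by
        have : 0 ≤ r k ^ 2 := sq_nonneg _
        nlinarith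
      have h10 : -(r k) * (4 * N + 6) ≤ 91 / 100 * r k ^ 2 + (45 / 10) * N ^ 2 := by
        have hpos : (0 : ℝ) < 22 / 10 * N := by linarith
        exact le_of_mul_le_mul_right (h8.trans h9) hpos
      nlinarith
    · -- r > 0
      have hrk' : 0 < r k := lt_of_not_ge hrk
      nlinarith
  have h6 : ((N : ℝ) - 1) * ∑ k ∈ B, (L u k - ((N : ℝ) ^ 2 - 5 * N - 6))
      ≤ B.card * (12 * N ^ 2 - 12 * N)
        + (191 / 100) * ∑ k ∈ B, (if r k ≤ 0 then r k ^ 2 else 0) := by
    rw [Finset.mul_sum]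
    refine (Finset.sum_le_sum rowb).trans (le_of_eq ?_)
    rw [Finset.sum_add_distrib, ← Finset.mul_sum]
    simp only [Finset.sum_const, nsmul_eq_mul]
  have h7 : ∑ k ∈ B, (if r k ≤ 0 then r k ^ 2 else 0) ≤ nsq (sg u) * ((N : ℝ) - 1 + B.card) := by
    rw [← Finset.sum_filter]
    have h0 := h.lemF (B.filter (fun k => r k ≤ 0)) (sg u)
      (Or.inl (fun k hk => (Finset.mem_filter.mp hk).2))
    have hcard : ((B.filter (fun k => r k ≤ 0)).card : ℝ) ≤ B.card := by
      exact_mod_cast Finset.card_filter_le _ _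
    refine h0.trans ?_
    exact mul_le_mul_of_nonneg_left (by linarith) (nsq_nonneg _)
  have h8 : nsq (sg u) * ((N : ℝ) - 1 + B.card) * (191 / 100) ≤ 2 * nsq (sg u) * ((N : ℝ) - 1) := by
    have := nsq_nonneg (sg u)
    nlinarith
  have h9 : ((N : ℝ) - 1) * ∑ k ∈ B, (L u k - ((N : ℝ) ^ 2 - 5 * N - 6))
      ≤ ((N : ℝ) - 1) * (12 * N * B.card + 2 * nsq (sg u)) := by
    nlinarith
  exact le_of_mul_le_mul_left h9 hN1

omit [DecidableEq ι] h [Fintype ι] in
lemma _root_.Pool.Agent.W_MP_7483c9_co.bracket (x κ n hv X : ℝ) (hx : (10 : ℝ) ^ 8 ≤ x)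
    (hκ0 : 0 ≤ κ) (hκ : 25 * κ ≤ x) (hn : n ≤ 2 * x + 3) (h3 : 3 ≤ hv) (hvH : hv ≤ 3500)
    (hX1 : X ≤ 2 * κ * (hv ^ 2 - 1)) (hX2 : X ≤ 2 * hv * (x - 1 + κ)) :
    (x + 1 - 2 * hv) * (x - 3 - 2 * hv) - (x ^ 2 - 5 * x - 6)
      + (4 * n + 12 * 3500 * hv ^ 2 + 8 * hv) + X ≤ - (35 / 100) * x := by
  have e1 : (x + 1 - 2 * hv) * (x - 3 - 2 * hv) - (x ^ 2 - 5 * x - 6)
      = (3 - 4 * hv) * x + 3 + 4 * hv + 4 * hv ^ 2 := by ring
  rw [e1]
  rcases le_or_gt hv 7 with h7 | h7
  · have q1 : hv ^ 2 ≤ 10 * hv - 21 := by nlinarith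
    have q2 : 2 * κ * (hv ^ 2 - 1) ≤ 2 * κ * (10 * hv - 22) := by nlinarith
    have q3 : 2 * κ * (10 * hv - 22) ≤ (2 / 25 * x) * (10 * hv - 22) := by nlinarith
    nlinarith
  · have q1 : hv ^ 2 ≤ 3507 * hv - 24500 := by nlinarith
    have q2 : 12 * 3500 * hv ^ 2 ≤ 42000 * (3507 * hv - 24500) := by nlinarith
    have q3 : 42000 * (3507 * hv - 24500) ≤ x * (147294 / 100000 * hv - 1029 / 100) := by
      nlinarith
    have q4 : 2 * hv * κ ≤ 2 * hv * (x / 25) := by nlinarith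
    have q5 : 4 * hv ^ 2 + 12 * hv + 15 ≤ x := by nlinarith
    nlinarith

theorem no_sys (hM : (Fintype.card ι : ℝ) = 2 * N + 3) (hN : (10 : ℝ) ^ 8 ≤ N) : False := by
  classical
  set H : ℝ := 3500 with hHd
  have hH : 4 * H + 1 < N := by rw [hHd]; linarith
  have hH1 : 1 ≤ H := by rw [hHd]; norm_num
  set B : Finset ι := Finset.univ.filter (fun k => ¬ Gd u H k) with hBd
  set O : Finset ι := Finset.univ.filter (fun k => Gd u H k ∧ hh u H k = 1) with hOd
  set U : Finset ι := Finset.univ.filter (fun k => Gd u H k ∧ 3 ≤ hh u H k) with hUd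
  have hBg : ∀ k ∈ B, ¬ Gd u H k := fun k hk => (Finset.mem_filter.mp hk).2
  have hUg : ∀ k ∈ U, Gd u H k := fun k hk => (Finset.mem_filter.mp hk).2.1
  have hOg : ∀ k ∈ O, Gd u H k := fun k hk => (Finset.mem_filter.mp hk).2.1
  have hUt : ∀ k ∈ U, tau u H k ∈ U := by
    intro k hk
    obtain ⟨_, h1, h2⟩ := Finset.mem_filter.mp hk
    refine Finset.mem_filter.mpr ⟨Finset.mem_univ _, h.Gd_tau hH hH1 h1, ?_⟩
    rw [h.hh_tau hH hH1 h1]; exact h2
  have hOt : ∀ k ∈ O, tau u H k ∈ O := by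
    intro k hk
    obtain ⟨_, h1, h2⟩ := Finset.mem_filter.mp hk
    refine Finset.mem_filter.mpr ⟨Finset.mem_univ _, h.Gd_tau hH hH1 h1, ?_⟩
    rw [h.hh_tau hH hH1 h1]; exact h2
  -- partition
  have part : ∀ g : ι → ℝ, ∑ k, g k = ∑ k ∈ O, g k + ∑ k ∈ U, g k + ∑ k ∈ B, g k := by
    intro g
    have hd1 : Disjoint O U := by
      rw [Finset.disjoint_left]
      intro k hk hk'
      have a1 := (Finset.mem_filter.mp hk).2.2
      have a2 := (Finset.mem_filter.mp hk').2.2
      rw [a1] at a2; norm_num at a2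
    have hd2 : Disjoint (O ∪ U) B := by
      rw [Finset.disjoint_left]
      intro k hk hk'
      rcases Finset.mem_union.mp hk with hk | hk
      · exact hBg k hk' (hOg k hk)
      · exact hBg k hk' (hUg k hk)
    rw [← Finset.sum_union hd1, ← Finset.sum_union hd2]
    congr 1
    ext k
    simp only [Finset.mem_union, Finset.mem_univ, true_iff]
    by_cases hk : Gd u H k
    · left
      rcases h.hh_odd hH hH1 hk with g1 | g1
      · left; exact Finset.mem_filter.mpr ⟨Finset.mem_univ _, hk, g1⟩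
      · right; exact Finset.mem_filter.mpr ⟨Finset.mem_univ _, hk, g1⟩
    · right; exact Finset.mem_filter.mpr ⟨Finset.mem_univ _, hk⟩
  have hBcard : 25 * (B.card : ℝ) ≤ N := by
    refine h.card_bad hM hN B ?_
    intro j hj k
    have := hBg j hj
    unfold Gd at this
    push Not at this
    exact (this k).le
  have hcard : (O.card : ℝ) + U.card + B.card = 2 * N + 3 := by
    have := part (fun _ => (1 : ℝ))
    simp only [Finset.sum_const, nsmul_eq_mul, mul_one, Finset.card_univ] at this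
    rw [← hM]; linarith
  set Λ : ℝ := (N : ℝ) ^ 2 - 5 * N - 6 with hΛ
  -- rows in O
  have cO : ∀ i ∈ O, ∀ k, k ≠ i → k ≠ tau u H i → ff (c u i k) ≤ 0 := by
    intro i hi k h1 h2
    have g1 := h.pair_le hH hH1 (hOg i hi) h1 h2
    have g2 : hh u H i = 1 := (Finset.mem_filter.mp hi).2.2
    rw [g2] at g1
    have g3 := h.c_nonneg i k
    have g4 := h.c_nonneg (tau u H i) k
    exact ff_nonpos g3 (by linarith)
  have ff0 : ∀ i, ff (c u i i) = 0 := by intro i; rw [c_self]; unfold ff; ring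
  have htc : ∀ i, Gd u H i → c u i (tau u H i) = (N : ℝ) + 1 - 2 * hh u H i := by
    intro i hi; unfold hh; ring
  have rowO : ∀ i ∈ O, L u i - Λ ≤ 11 - N := by
    intro i hi
    have hne := h.tau_ne hH hH1 (hOg i hi)
    have g2 : hh u H i = 1 := (Finset.mem_filter.mp hi).2.2
    have e1 : L u i ≤ ∑ k, (if k = tau u H i then ff (c u i (tau u H i)) else 0) := by
      unfold L
      refine Finset.sum_le_sum (fun k _ => ?_)
      by_cases e : k = tau u H i
      · rw [if_pos e, e]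
      · rw [if_neg e]
        by_cases e' : k = i
        · rw [e', ff0]
        · exact cO i hi k e' e
    rw [Finset.sum_ite_eq', if_pos (Finset.mem_univ _), htc i (hOg i hi), g2] at e1
    have : ff ((N : ℝ) + 1 - 2 * 1) = (N : ℝ) ^ 2 - 6 * N + 5 := by unfold ff; ring
    rw [this] at e1
    rw [hΛ]; linarith
  -- rows in U
  set X : ι → ℝ := fun i => ∑ k ∈ B, 2 * (ip (w u H i) (u k) ^ 2 - 1) with hXd
  have hX1 : ∀ i ∈ U, X i ≤ 2 * B.card * (hh u H i ^ 2 - 1) := fun i hi =>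
    h.X_one hH hH1 B hBg (hUg i hi)
  have hX2 : ∀ i ∈ U, X i ≤ 2 * hh u H i * ((N : ℝ) - 1 + B.card) := fun i hi =>
    h.X_two hH hH1 B hBg (hUg i hi)
  have eUB := h.energy_UB hH hH1 U B hUg hUt hBg X (fun i _ => le_refl _)
  have eUU := h.energy_UU hH hH1 U hUg hUt
  have rowU : ∀ i ∈ U, L u i ≤ ff (c u i (tau u H i))
      + ∑ k ∈ U, (if k = i ∨ k = tau u H i then 0 else ff (c u i k))
      + ∑ k ∈ B, ff (c u i k) := by
    intro i hi
    have hne := h.tau_ne hH hH1 (hUg i hi)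
    unfold L
    rw [part (fun j => ff (c u i j))]
    have o1 : ∑ k ∈ O, ff (c u i k) ≤ 0 := by
      refine Finset.sum_nonpos (fun k hk => ?_)
      rw [c_comm]
      apply cO k hk i
      · intro e
        rw [e] at hi
        have a1 := (Finset.mem_filter.mp hk).2.2
        have a2 := (Finset.mem_filter.mp hi).2.2
        rw [a1] at a2; norm_num at a2
      · intro e
        have hk' := hOt k hk
        rw [← e] at hk'
        have a1 := (Finset.mem_filter.mp hk').2.2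
        have a2 := (Finset.mem_filter.mp hi).2.2
        rw [a1] at a2; norm_num at a2
    have o2 : ∑ k ∈ U, ff (c u i k) = ff (c u i (tau u H i))
      + ∑ k ∈ U, (if k = i ∨ k = tau u H i then 0 else ff (c u i k)) := by
      have : ∀ k ∈ U, ff (c u i k) = (if k = tau u H i then ff (c u i (tau u H i)) else 0)
          + (if k = i ∨ k = tau u H i then 0 else ff (c u i k)) := by
        intro k _
        by_cases e : k = tau u H i
        · simp [e]
        · by_cases e' : k = i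
          · simp [e', ff0, hne.symm]
          · simp [e, e']
      rw [Finset.sum_congr rfl this, Finset.sum_add_distrib, Finset.sum_ite_eq',
        if_pos (hUt i hi)]
    linarith
  have sumU : ∑ i ∈ U, (L u i - Λ) ≤ ∑ i ∈ U, (-(35 / 100) * (N : ℝ)) := by
    have f1 : ∑ i ∈ U, (L u i - Λ) ≤ ∑ i ∈ U, ((ff (c u i (tau u H i)) - Λ)
        + (4 * U.card + 12 * H * hh u H i ^ 2 + 8 * hh u H i) + X i) := by
      have f2 : ∑ i ∈ U, (L u i - Λ) ≤ ∑ i ∈ U, ((ff (c u i (tau u H i)) - Λ)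
        + ∑ k ∈ U, (if k = i ∨ k = tau u H i then 0 else ff (c u i k))
        + ∑ k ∈ B, ff (c u i k)) :=
        Finset.sum_le_sum (fun i hi => by have := rowU i hi; linarith)
      rw [Finset.sum_add_distrib, Finset.sum_add_distrib] at f2
      rw [Finset.sum_add_distrib, Finset.sum_add_distrib]
      linarith
    refine f1.trans (Finset.sum_le_sum (fun i hi => ?_))
    have b3 := (Finset.mem_filter.mp hi).2.2
    have bH := h.hh_le hH hH1 (hUg i hi)
    have bn : (U.card : ℝ) ≤ 2 * N + 3 := by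
      have a1 : (0 : ℝ) ≤ O.card := Nat.cast_nonneg _
      have a2 : (0 : ℝ) ≤ B.card := Nat.cast_nonneg _
      linarith
    have := bracket (N : ℝ) B.card U.card (hh u H i) (X i) hN (Nat.cast_nonneg _) hBcard bn b3
      (by rw [← hHd]; exact bH) (hX1 i hi) (hX2 i hi)
    rw [htc i (hUg i hi)]
    have e2 : ff ((N : ℝ) + 1 - 2 * hh u H i)
        = ((N : ℝ) + 1 - 2 * hh u H i) * (N - 3 - 2 * hh u H i) := by unfold ff; ring
    rw [e2, hΛ, hHd]
    linarith
  have sumO : ∑ i ∈ O, (L u i - Λ) ≤ ∑ i ∈ O, (-(35 / 100) * (N : ℝ)) :=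
    Finset.sum_le_sum (fun i hi => by have := rowO i hi; linarith)
  have sumB := h.bad_rows hM hN B hBcard
  have tot := part (fun i => L u i - Λ)
  simp only [Finset.sum_const, nsmul_eq_mul] at sumU sumO
  -- lower bound for the total
  have low : 2 * nsq (sg u) ≤ ∑ i, (L u i - Λ) := by
    have h1 := h.sum_C2_ge
    have h3 := h.nsq_sg
    rw [Finset.sum_congr rfl (fun i _ => by rw [L_eq]), Finset.sum_sub_distrib,
      Finset.sum_sub_distrib, ← Finset.mul_sum]
    simp only [Finset.sum_const, Finset.card_univ, nsmul_eq_mul]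
    rw [hM] at h1 h3 ⊢
    rw [hΛ]
    set S1 := ∑ i, C1 u i with hS1
    set S2 := ∑ i, C2 u i with hS2
    have e1 : S1 = ((N : ℝ) - 1) * (2 * N + 3) + (2 * N + 3) ^ 2 - nsq (sg u) := by linarith
    rw [e1] at h1 ⊢
    nlinarith
  have hO0 : (0 : ℝ) ≤ O.card := Nat.cast_nonneg _
  have hB0 : (0 : ℝ) ≤ B.card := Nat.cast_nonneg _
  have e1 : (O.card : ℝ) + U.card = 2 * N + 3 - B.card := by linarith
  have fin : 2 * nsq (sg u) ≤ (O.card + U.card : ℝ) * (-(35 / 100) * N) + 12 * N * B.card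
      + 2 * nsq (sg u) := by
    have : ∑ k ∈ B, (L u k - Λ) ≤ 12 * N * B.card + 2 * nsq (sg u) := sumB
    linarith
  rw [e1] at fin
  nlinarith

end Sys

end Pool.Agent.W_MP_7483c9_co
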