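import Pool.Agent.W_MP_7483c9_co.Bad

set_option autoImplicit false
set_option linter.unusedSectionVars false
set_option linter.unusedVariables false
set_option linter.unusedSimpArgs false

namespace Pool.Agent.W_MP_7483c9_co

open Finset

variable {ι : Type*} [Fintype ι] [DecidableEq ι] {N : ℕ}

/-- a row having an almost antipodal partner -/
def Gd (u : ι → Fin N → ℝ) (H : ℝ) (i : ι) : Prop := ∃ j, (N : ℝ) + 1 - 2 * H ≤ c u i j

open Classical in
noncomputable def tau (u : ι → Fin N → ℝ) (H : ℝ) (i : ι) : ι :=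
  if hh : Gd u H i then hh.choose else i

noncomputable def w (u : ι → Fin N → ℝ) (H : ℝ) (i : ι) (a : Fin N) : ℝ :=
  (u i a + u (tau u H i) a) / 2

noncomputable def hh (u : ι → Fin N → ℝ) (H : ℝ) (i : ι) : ℝ :=
  ((N : ℝ) + 1 - c u i (tau u H i)) / 2

noncomputable def phi (u : ι → Fin N → ℝ) (H : ℝ) (i k : ι) : ℝ :=
  ip (w u H i) (w u H k)

namespace Sys

variable {u : ι → Fin N → ℝ} (h : Sys u)

include h

lemma triple (i j k : ι) (hij : i ≠ j) (hik : i ≠ k) (hjk : j ≠ k) :
    c u i j + c u i k + c u j k ≤ N + 3 := by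
  have h1 : (N : ℝ) ≤ ∑ a, (u i a + u j a + u k a) ^ 2 := by
    have : ∀ a ∈ (Finset.univ : Finset (Fin N)), (1 : ℝ) ≤ (u i a + u j a + u k a) ^ 2 := by
      intro a _
      rcases h.pm i a with h1 | h1 <;> rcases h.pm j a with h2 | h2 <;>
        rcases h.pm k a with h3 | h3 <;> rw [h1, h2, h3] <;> norm_num
    have := Finset.sum_le_sum this
    simpa using this
  have h2 : ∑ a, (u i a + u j a + u k a) ^ 2
      = G u i i + G u j j + G u k k + 2 * (G u i j + G u i k + G u j k) := by
    unfold G
    rw [← Finset.sum_add_distrib, ← Finset.sum_add_distrib, ← Finset.sum_add_distrib,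
      ← Finset.sum_add_distrib, Finset.mul_sum, ← Finset.sum_add_distrib]
    exact Finset.sum_congr rfl (fun a _ => by ring)
  rw [h2, h.G_self, h.G_self, h.G_self, h.G_eq i j, h.G_eq i k, h.G_eq j k] at h1
  simp only [hij, hik, hjk, if_false] at h1
  linarith

lemma c_le (i j : ι) : c u i j ≤ N + 1 := by
  by_cases hij : i = j
  · subst hij
    rw [c_self]
    positivity
  · have : 0 ≤ ∑ a, (u i a + u j a) ^ 2 := Finset.sum_nonneg (fun a _ => sq_nonneg _)
    have h2 : ∑ a, (u i a + u j a) ^ 2 = G u i i + G u j j + 2 * G u i j := by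
      unfold G
      rw [← Finset.sum_add_distrib, Finset.mul_sum, ← Finset.sum_add_distrib]
      exact Finset.sum_congr rfl (fun a _ => by ring)
    rw [h2, h.G_self, h.G_self, h.G_eq i j] at this
    simp only [hij, if_false] at this
    linarith

variable {H : ℝ} (hH : 4 * H + 1 < N) (hH1 : 1 ≤ H)

include hH hH1

lemma ne_of_beta {i j : ι} (hij : (N : ℝ) + 1 - 2 * H ≤ c u i j) : i ≠ j := by
  intro e
  subst e
  rw [c_self] at hij
  linarith

lemma uniq {i j k : ι} (hij : (N : ℝ) + 1 - 2 * H ≤ c u i j)
    (hik : (N : ℝ) + 1 - 2 * H ≤ c u i k) : j = k := by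
  by_contra hjk
  have h1 := h.triple i j k (h.ne_of_beta hH hH1 hij) (h.ne_of_beta hH hH1 hik) hjk
  have h2 := h.c_nonneg j k
  linarith

lemma tau_spec {i : ι} (hi : Gd u H i) : (N : ℝ) + 1 - 2 * H ≤ c u i (tau u H i) := by
  unfold tau
  rw [dif_pos hi]
  exact hi.choose_spec

lemma tau_ne {i : ι} (hi : Gd u H i) : tau u H i ≠ i :=
  fun e => h.ne_of_beta hH hH1 (h.tau_spec hH hH1 hi) e.symm

lemma Gd_tau {i : ι} (hi : Gd u H i) : Gd u H (tau u H i) :=
  ⟨i, by rw [c_comm]; exact h.tau_spec hH hH1 hi⟩

lemma tau_tau {i : ι} (hi : Gd u H i) : tau u H (tau u H i) = i := by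
  apply h.uniq hH hH1 (h.tau_spec hH hH1 (h.Gd_tau hH hH1 hi))
  rw [c_comm]; exact h.tau_spec hH hH1 hi

lemma w_tau {i : ι} (hi : Gd u H i) : w u H (tau u H i) = w u H i := by
  funext a
  unfold w
  rw [h.tau_tau hH hH1 hi]; ring

lemma hh_tau {i : ι} (hi : Gd u H i) : hh u H (tau u H i) = hh u H i := by
  unfold hh
  rw [h.tau_tau hH hH1 hi, c_comm]

lemma w_val {i : ι} (a : Fin N) : w u H i a = 0 ∨ w u H i a = 1 ∨ w u H i a = -1 := by
  unfold w
  rcases h.pm i a with h1 | h1 <;> rcases h.pm (tau u H i) a with h2 | h2 <;>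
    rw [h1, h2] <;> norm_num

lemma nsq_w {i : ι} (hi : Gd u H i) : nsq (w u H i) = hh u H i := by
  have h2 : ∑ a, (w u H i a) ^ 2 = (G u i i + G u (tau u H i) (tau u H i)
      + 2 * G u i (tau u H i)) / 4 := by
    unfold G w
    rw [← Finset.sum_add_distrib, Finset.mul_sum, ← Finset.sum_add_distrib, Finset.sum_div]
    exact Finset.sum_congr rfl (fun a _ => by ring)
  unfold nsq
  rw [h2, h.G_self, h.G_self, h.G_eq]
  have : i ≠ tau u H i := fun e => h.tau_ne hH hH1 hi e.symm
  simp only [this, if_false]
  unfold hh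
  ring

lemma hh_le {i : ι} (hi : Gd u H i) : hh u H i ≤ H := by
  have := h.tau_spec hH hH1 hi
  unfold hh
  linarith

lemma hh_odd {i : ι} (hi : Gd u H i) : hh u H i = 1 ∨ 3 ≤ hh u H i := by
  obtain ⟨b, hb⟩ := h.par i i
  obtain ⟨b', hb'⟩ := h.par i (tau u H i)
  have hG : ∑ a, u i a * u i a = N := h.G_self i
  rw [hG] at hb
  have hne : i ≠ tau u H i := fun e => h.tau_ne hH hH1 hi e.symm
  have hc : c u i (tau u H i) = 4 * b' := by
    unfold c
    simp only [hne, if_false]
    exact hb'
  have hv : hh u H i = 1 - 2 * b - 2 * b' := by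
    unfold hh
    rw [hc]; linarith
  have h0 : 0 ≤ hh u H i := by
    rw [← h.nsq_w hH hH1 hi]; exact nsq_nonneg _
  rw [hv] at h0 ⊢
  have h1 : (0 : ℤ) ≤ 1 - 2 * b - 2 * b' := by exact_mod_cast h0
  have h2 : b + b' = 0 ∨ b + b' ≤ -1 := by omega
  rcases h2 with h2 | h2
  · left
    have : (b : ℝ) + b' = 0 := by exact_mod_cast h2
    linarith
  · right
    have : (b : ℝ) + b' ≤ -1 := by exact_mod_cast h2
    linarith

/-- sum of the two entries against a pair -/
lemma pair_le {i k : ι} (hi : Gd u H i) (h1 : k ≠ i) (h2 : k ≠ tau u H i) :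
    c u i k + c u (tau u H i) k ≤ 2 * hh u H i + 2 := by
  have := h.triple i (tau u H i) k (fun e => h.tau_ne hH hH1 hi e.symm) (Ne.symm h1) (Ne.symm h2)
  unfold hh
  linarith

lemma ip_w_u {i k : ι} (hi : Gd u H i) (h1 : k ≠ i) (h2 : k ≠ tau u H i) :
    ip (w u H i) (u k) = 1 - (c u i k + c u (tau u H i) k) / 2 := by
  have e : ip (w u H i) (u k) = (G u i k + G u (tau u H i) k) / 2 := by
    unfold ip w G
    rw [← Finset.sum_add_distrib, Finset.sum_div]
    exact Finset.sum_congr rfl (fun a _ => by ring)
  rw [e, h.G_eq, h.G_eq]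
  simp only [Ne.symm h1, Ne.symm h2, if_false]
  ring

lemma phi_eq {i k : ι} (hi : Gd u H i) (hk : Gd u H k) (h1 : k ≠ i) (h2 : k ≠ tau u H i) :
    4 * (1 - phi u H i k) = c u i k + c u i (tau u H k) + c u (tau u H i) k
      + c u (tau u H i) (tau u H k) := by
  have h3 : tau u H k ≠ i := by
    intro e; apply h2; rw [← e, h.tau_tau hH hH1 hk]
  have h4 : tau u H k ≠ tau u H i := by
    intro e; apply h1
    rw [← h.tau_tau hH hH1 hk, e, h.tau_tau hH hH1 hi]
  have e : phi u H i k = (ip (w u H i) (u k) + ip (w u H i) (u (tau u H k))) / 2 := by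
    unfold phi ip
    rw [← Finset.sum_add_distrib, Finset.sum_div]
    refine Finset.sum_congr rfl (fun a _ => ?_)
    unfold w; ring
  rw [e, h.ip_w_u hH hH1 hi h1 h2, h.ip_w_u hH hH1 hi h3 h4]
  ring

lemma phi_le_one {i k : ι} (hi : Gd u H i) (hk : Gd u H k) (h1 : k ≠ i) (h2 : k ≠ tau u H i) :
    phi u H i k ≤ 1 := by
  have := h.phi_eq hH hH1 hi hk h1 h2
  have a1 := h.c_nonneg i k
  have a2 := h.c_nonneg i (tau u H k)
  have a3 := h.c_nonneg (tau u H i) k
  have a4 := h.c_nonneg (tau u H i) (tau u H k)
  linarith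

lemma phi_self {i : ι} (hi : Gd u H i) : phi u H i i = hh u H i := by
  unfold phi
  rw [ip_self, h.nsq_w hH hH1 hi]

lemma phi_tau {i : ι} (hi : Gd u H i) : phi u H i (tau u H i) = hh u H i := by
  unfold phi
  rw [h.w_tau hH hH1 hi, ip_self, h.nsq_w hH hH1 hi]

lemma phi_le' {i k : ι} (hi : Gd u H i) (hk : Gd u H k) :
    phi u H i k ≤ 1 + (if k = i then H else 0) + (if k = tau u H i then H else 0) := by
  have hle := h.hh_le hH hH1 hi
  by_cases h1 : k = i
  · subst h1
    rw [h.phi_self hH hH1 hi]
    have : (0 : ℝ) ≤ (if k = tau u H k then H else 0) := by split_ifs <;> linarith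
    simp only [if_true]; linarith
  · by_cases h2 : k = tau u H i
    · rw [h2, h.phi_tau hH hH1 hi]
      have : (0 : ℝ) ≤ (if tau u H i = i then H else 0) := by split_ifs <;> linarith
      simp only [if_true]; linarith
    · simp only [h1, h2, if_false]
      have := h.phi_le_one hH hH1 hi hk h1 h2
      linarith

omit hH hH1 h in
lemma _root_.Pool.Agent.W_MP_7483c9_co.sum_phi (A : Finset ι) : ∑ k ∈ A, ∑ l ∈ A, phi u H k l
    = nsq (fun a => ∑ k ∈ A, w u H k a) := by
  unfold phi ip nsq
  have : ∀ a, (∑ k ∈ A, w u H k a) ^ 2 = ∑ k ∈ A, ∑ l ∈ A, w u H k a * w u H l a := by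
    intro a; rw [sq, Finset.sum_mul_sum]
  simp_rw [this]
  symm
  rw [Finset.sum_comm]
  refine Finset.sum_congr rfl (fun k _ => ?_)
  rw [Finset.sum_comm]

/-- few pair vectors share two prescribed nonzero coordinates -/
lemma card_A (A : Finset ι) (hA : ∀ k ∈ A, Gd u H k) (a b : Fin N) (hab : a ≠ b) (s t : ℝ)
    (hs : s ^ 2 = 1) (ht : t ^ 2 = 1) (h1 : ∀ k ∈ A, w u H k a = s)
    (h2 : ∀ k ∈ A, w u H k b = t) : (A.card : ℝ) ≤ 2 * H := by
  have e1 := sum_phi (u := u) (H := H) A
  have e2 : 2 * (A.card : ℝ) ^ 2 ≤ nsq (fun a => ∑ k ∈ A, w u H k a) := by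
    unfold nsq
    have hsub : ({a, b} : Finset (Fin N)) ⊆ Finset.univ := Finset.subset_univ _
    have := Finset.sum_le_sum_of_subset_of_nonneg (f := fun a => (∑ k ∈ A, w u H k a) ^ 2) hsub
      (fun x _ _ => sq_nonneg _)
    rw [Finset.sum_pair hab] at this
    have f1 : ∑ k ∈ A, w u H k a = A.card * s := by
      rw [Finset.sum_congr rfl h1]; simp
    have f2 : ∑ k ∈ A, w u H k b = A.card * t := by
      rw [Finset.sum_congr rfl h2]; simp
    rw [f1, f2, mul_pow, mul_pow, hs, ht] at this
    linarith
  have e3 : ∑ k ∈ A, ∑ l ∈ A, phi u H k l ≤ A.card * (A.card + 2 * H) := by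
    have : ∀ k ∈ A, ∑ l ∈ A, phi u H k l ≤ (A.card : ℝ) + 2 * H := by
      intro k hk
      have g1 : ∑ l ∈ A, phi u H k l
          ≤ ∑ l ∈ A, (1 + (if l = k then H else 0) + (if l = tau u H k then H else 0)) :=
        Finset.sum_le_sum (fun l hl => h.phi_le' hH hH1 (hA k hk) (hA l hl))
      rw [Finset.sum_add_distrib, Finset.sum_add_distrib, Finset.sum_ite_eq',
        Finset.sum_ite_eq'] at g1
      have g2 : (if k ∈ A then H else 0) ≤ H := by split_ifs <;> linarith
      have g3 : (if tau u H k ∈ A then H else 0) ≤ H := by split_ifs <;> linarith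
      simp only [Finset.sum_const, nsmul_eq_mul, mul_one] at g1
      linarith
    have := Finset.sum_le_sum this
    simp only [Finset.sum_const, nsmul_eq_mul] at this
    exact this
  rw [e1] at e3
  rcases Nat.eq_zero_or_pos A.card with h0 | h0
  · rw [h0]; push_cast; linarith
  · have h0' : (0 : ℝ) < A.card := by exact_mod_cast h0
    have : (A.card : ℝ) * A.card ≤ (2 * H) * A.card := by nlinarith
    exact le_of_mul_le_mul_right this h0'

/-- `φ² ≤ 1 + (3/2) q (q-1)` summed: the key second moment bound -/
lemma sum_phi_sq (U : Finset ι) (hU : ∀ k ∈ U, Gd u H k) {i : ι} (hi : Gd u H i) :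
    ∑ k ∈ U, (if k = i ∨ k = tau u H i then 0 else phi u H i k ^ 2)
      ≤ U.card + 3 * H * hh u H i ^ 2 := by
  classical
  set e : ι → Fin N → ℝ := fun k a => if w u H i a * w u H k a = -1 then 1 else 0 with he
  set q : ι → ℝ := fun k => ∑ a, e k a with hq
  have hwv : ∀ k a, w u H k a = 0 ∨ w u H k a = 1 ∨ w u H k a = -1 := fun k a =>
    h.w_val hH hH1 a
  have e01 : ∀ k a, e k a = 0 ∨ e k a = 1 := by
    intro k a; simp only [he]; split_ifs <;> simp
  have step1 : ∀ k ∈ U, (if k = i ∨ k = tau u H i then 0 else phi u H i k ^ 2)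
      ≤ 1 + 3 / 2 * (q k ^ 2 - q k) := by
    intro k hk
    have hqn : ∃ n : ℕ, q k = n := by
      refine ⟨(Finset.univ.filter (fun a => w u H i a * w u H k a = -1)).card, ?_⟩
      simp only [hq, he]
      rw [Finset.sum_boole]
    obtain ⟨n, hn⟩ := hqn
    have hn1 : (0 : ℝ) ≤ q k ^ 2 - q k := by
      rw [hn]
      rcases Nat.eq_zero_or_pos n with h0 | h0
      · subst h0; simp
      · have : (1 : ℝ) ≤ n := by exact_mod_cast h0
        nlinarith
    have hn2 : q k ^ 2 ≤ 1 + 3 / 2 * (q k ^ 2 - q k) := by
      rw [hn]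
      have : (0 : ℝ) ≤ ((n : ℝ) - 1) * ((n : ℝ) - 2) := by
        rcases Nat.lt_or_ge n 1 with h0 | h0
        · have : n = 0 := by omega
          subst this; norm_num
        · rcases Nat.lt_or_ge n 2 with h3 | h3
          · have : n = 1 := by omega
            subst this; norm_num
          · have h4 : (2 : ℝ) ≤ n := by exact_mod_cast h3
            exact mul_nonneg (by linarith) (by linarith)
      nlinarith
    have hq0 : 0 ≤ q k := by rw [hn]; positivity
    split_ifs with hc
    · linarith
    · rw [not_or] at hc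
      have h1 := h.phi_le_one hH hH1 hi (hU k hk) hc.1 hc.2
      have h2 : -q k ≤ phi u H i k := by
        unfold phi ip
        simp only [hq]
        rw [← Finset.sum_neg_distrib]
        refine Finset.sum_le_sum (fun a _ => ?_)
        simp only [he]
        rcases hwv i a with g1 | g1 | g1 <;> rcases hwv k a with g2 | g2 | g2 <;>
          rw [g1, g2] <;> norm_num
      rcases le_or_gt 0 (phi u H i k) with h3 | h3
      · have : phi u H i k ^ 2 ≤ 1 := by nlinarith
        linarith
      · have : phi u H i k ^ 2 ≤ q k ^ 2 := by nlinarith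
        linarith
  have step2 : ∑ k ∈ U, (q k ^ 2 - q k) ≤ 2 * H * hh u H i ^ 2 := by
    have f1 : ∀ k, q k ^ 2 - q k = ∑ a, ∑ b, (if a = b then 0 else e k a * e k b) := by
      intro k
      have f2 : ∀ a, ∑ b, (if a = b then 0 else e k a * e k b) = e k a * q k - e k a := by
        intro a
        have f3 : ∀ b, (if a = b then (0 : ℝ) else e k a * e k b)
            = e k a * e k b - (if a = b then e k a * e k b else 0) := by
          intro b; split_ifs <;> ring
        rw [Finset.sum_congr rfl (fun b _ => f3 b), Finset.sum_sub_distrib, ← Finset.mul_sum]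
        simp only [Finset.sum_ite_eq, Finset.mem_univ, if_true]
        rcases e01 k a with g | g <;> rw [g] <;> simp [hq]
      rw [Finset.sum_congr rfl (fun a _ => f2 a), Finset.sum_sub_distrib, ← Finset.sum_mul]
      simp only [hq]
      ring
    rw [Finset.sum_congr rfl (fun k _ => f1 k), Finset.sum_comm]
    have f4 : ∀ a ∈ (Finset.univ : Finset (Fin N)),
        ∑ k ∈ U, ∑ b, (if a = b then 0 else e k a * e k b)
          ≤ ∑ b, 2 * H * (w u H i a ^ 2 * w u H i b ^ 2) := by
      intro a _
      rw [Finset.sum_comm]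
      refine Finset.sum_le_sum (fun b _ => ?_)
      by_cases hab : a = b
      · simp only [hab, if_true, Finset.sum_const_zero]
        positivity
      · simp only [hab, if_false]
        by_cases ha : w u H i a = 0
        · have : ∀ k ∈ U, e k a * e k b = 0 := by
            intro k _
            simp [he, ha]
          rw [Finset.sum_eq_zero this]
          positivity
        · by_cases hb : w u H i b = 0
          · have : ∀ k ∈ U, e k a * e k b = 0 := by
              intro k _
              simp [he, hb]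
            rw [Finset.sum_eq_zero this]
            positivity
          · have sa : w u H i a ^ 2 = 1 := by
              rcases hwv i a with g | g | g
              · exact absurd g ha
              · rw [g]; norm_num
              · rw [g]; norm_num
            have sb : w u H i b ^ 2 = 1 := by
              rcases hwv i b with g | g | g
              · exact absurd g hb
              · rw [g]; norm_num
              · rw [g]; norm_num
            rw [sa, sb]
            have g1 : ∑ k ∈ U, e k a * e k b
                = ((U.filter (fun k => w u H i a * w u H k a = -1 ∧ w u H i b * w u H k b = -1)).card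
                    : ℝ) := by
              rw [← Finset.sum_boole]
              refine Finset.sum_congr rfl (fun k _ => ?_)
              simp only [he]
              by_cases g2 : w u H i a * w u H k a = -1 <;>
                by_cases g3 : w u H i b * w u H k b = -1 <;> simp [g2, g3]
            rw [g1]
            have := h.card_A hH hH1
              (U.filter (fun k => w u H i a * w u H k a = -1 ∧ w u H i b * w u H k b = -1))
              (fun k hk => hU k (Finset.mem_filter.mp hk).1) a b hab (-w u H i a) (-w u H i b)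
              (by rw [neg_sq, sa]) (by rw [neg_sq, sb])
              (fun k hk => by
                have hk' := (Finset.mem_filter.mp hk).2.1
                have : w u H i a * (w u H i a * w u H k a) = w u H i a * (-1) := by rw [hk']
                have e : w u H i a * (w u H i a * w u H k a) = w u H i a ^ 2 * w u H k a := by ring
                rw [e, sa] at this
                linarith)
              (fun k hk => by
                have hk' := (Finset.mem_filter.mp hk).2.2
                have : w u H i b * (w u H i b * w u H k b) = w u H i b * (-1) := by rw [hk']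
                have e : w u H i b * (w u H i b * w u H k b) = w u H i b ^ 2 * w u H k b := by ring
                rw [e, sb] at this
                linarith)
            linarith
    refine (Finset.sum_le_sum f4).trans (le_of_eq ?_)
    have f5 : ∀ a, ∑ b, 2 * H * (w u H i a ^ 2 * w u H i b ^ 2)
        = 2 * H * hh u H i * w u H i a ^ 2 := by
      intro a
      rw [← Finset.mul_sum, ← Finset.mul_sum]
      have : ∑ b, w u H i b ^ 2 = hh u H i := h.nsq_w hH hH1 hi
      rw [this]; ring
    rw [Finset.sum_congr rfl (fun a _ => f5 a), ← Finset.mul_sum]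
    have : ∑ b, w u H i b ^ 2 = hh u H i := h.nsq_w hH hH1 hi
    rw [this]; ring
  have step3 := Finset.sum_le_sum step1
  rw [Finset.sum_add_distrib, ← Finset.mul_sum] at step3
  simp only [Finset.sum_const, nsmul_eq_mul, mul_one] at step3
  linarith

end Sys

end Pool.Agent.W_MP_7483c9_co
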