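import Pool.Agent.W_MP_7483c9_co.Basic

set_option autoImplicit false
set_option linter.unusedSectionVars false
set_option linter.unusedVariables false
set_option linter.unusedSimpArgs false

namespace Pool.Agent.W_MP_7483c9_co

open Finset

variable {ι : Type*} [Fintype ι] [DecidableEq ι] {N : ℕ}

namespace Sys

variable {u : ι → Fin N → ℝ} (h : Sys u)

include h

lemma nsq_sg : nsq (sg u) = ((N : ℝ) - 1) * Fintype.card ι + (Fintype.card ι : ℝ) ^ 2
    - ∑ i, C1 u i := by
  have := h.gram_expand (fun _ => (1 : ℝ)) (fun _ => (1 : ℝ))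
  simp only [one_mul, mul_one, Finset.sum_const, Finset.card_univ, nsmul_eq_mul] at this
  rw [← ip_self]
  unfold ip sg C1
  rw [this]; ring

lemma ip_sg (k : ι) : ip (sg u) (u k) = ((N : ℝ) - 1) + Fintype.card ι - C1 u k := by
  have := h.gram_expand (fun j => if j = k then (1 : ℝ) else 0) (fun _ => (1 : ℝ))
  simp only [one_mul, mul_one, Finset.sum_const, Finset.card_univ, nsmul_eq_mul, ite_mul,
    zero_mul, Finset.sum_ite_eq', Finset.mem_univ, if_true] at this
  rw [ip_comm]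
  unfold ip sg
  rw [this]
  have e : ∑ x, ∑ x_1, (if x = k then c u x x_1 else 0) = C1 u k := by
    unfold C1
    rw [Finset.sum_comm]
    simp
  rw [e]

lemma sum_ip_sg : ∑ k, ip (sg u) (u k) = nsq (sg u) := by
  unfold ip nsq sg
  rw [Finset.sum_comm]
  refine Finset.sum_congr rfl (fun a _ => ?_)
  rw [← Finset.mul_sum]; ring

lemma sum_G_sq (i : ι) : ∑ j, G u i j ^ 2
    = (N : ℝ) ^ 2 - 1 + Fintype.card ι - 2 * C1 u i + C2 u i := by
  have e : ∀ j, G u i j ^ 2 = ((N : ℝ) ^ 2 - 1) * (if i = j then 1 else 0) + 1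
      - 2 * c u i j + c u i j ^ 2 := by
    intro j
    rw [h.G_eq]
    by_cases hij : i = j
    · subst hij; simp [c_self]
    · simp [hij]; ring
  rw [Finset.sum_congr rfl (fun j _ => e j), Finset.sum_add_distrib, Finset.sum_sub_distrib,
    Finset.sum_add_distrib, ← Finset.mul_sum, ← Finset.mul_sum]
  unfold C1 C2
  simp

/-- lower bound for `∑ C2` -/
lemma sum_C2_ge : (N : ℝ) * (Fintype.card ι : ℝ) ^ 2 ≤
    (Fintype.card ι : ℝ) * ((N : ℝ) ^ 2 - 1 + Fintype.card ι) - 2 * ∑ i, C1 u i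
      + ∑ i, C2 u i := by
  have h1 := h.lemA
  rw [Finset.sum_congr rfl (fun i _ => h.sum_G_sq i), Finset.sum_add_distrib,
    Finset.sum_sub_distrib, ← Finset.mul_sum] at h1
  simp only [Finset.sum_const, Finset.card_univ, nsmul_eq_mul] at h1
  linarith

/-- row identity -/
lemma row_id (i : ι) : nsq (Z u i) + T u i
    = ((N : ℝ) - 1) * (N * ((N : ℝ) - 1) + 2 * C1 u i - C2 u i) + C1 u i ^ 2 := by
  set x : ι → ℝ := fun j => ((N : ℝ) - 1) * (if j = i then 1 else 0) + c u i j with hx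
  have hZ : ∀ a, Z u i a = ∑ j, x j * u j a := by
    intro a
    simp only [hx, Z, add_mul, Finset.sum_add_distrib]
    congr 1
    simp
  have h1 := h.gram_expand x x
  have h2 : ∑ j, x j = (N : ℝ) - 1 + C1 u i := by
    simp only [hx, Finset.sum_add_distrib, ← Finset.mul_sum, C1]
    simp
  have h3 : ∑ j, x j * x j = ((N : ℝ) - 1) ^ 2 + C2 u i := by
    have : ∀ j, x j * x j = ((N : ℝ) - 1) ^ 2 * (if j = i then 1 else 0) + c u i j ^ 2 := by
      intro j
      simp only [hx]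
      by_cases hj : j = i
      · subst hj; simp [c_self]; ring
      · simp [hj]; ring
    rw [Finset.sum_congr rfl (fun j _ => this j), Finset.sum_add_distrib, ← Finset.mul_sum]
    simp [C2]
  have h4 : ∑ j, ∑ k, x j * x k * c u j k = 2 * ((N : ℝ) - 1) * C2 u i + T u i := by
    have : ∀ j k, x j * x k * c u j k
        = ((N : ℝ) - 1) * (if j = i then (if k = i then 0 else c u i k ^ 2) else 0)
          + ((N : ℝ) - 1) * (if k = i then (if j = i then 0 else c u i j ^ 2) else 0)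
          + c u i j * c u i k * c u j k := by
      intro j k
      simp only [hx]
      by_cases hj : j = i
      · subst hj
        by_cases hk : k = j
        · subst hk; simp [c_self]
        · simp [hk, c_self]; ring
      · by_cases hk : k = i
        · subst hk; simp [hj, c_self, c_comm u j k]; ring
        · simp [hj, hk]
    simp_rw [this, Finset.sum_add_distrib, ← Finset.mul_sum]
    have e1 : ∑ x, ∑ i_1, (if x = i then (if i_1 = i then (0 : ℝ) else c u i i_1 ^ 2) else 0)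
        = C2 u i := by
      rw [Finset.sum_comm]
      unfold C2
      refine Finset.sum_congr rfl (fun k _ => ?_)
      by_cases hk : k = i
      · subst hk; simp [c_self]
      · simp [hk]
    have e2 : ∑ x, ∑ i_1, (if i_1 = i then (if x = i then (0 : ℝ) else c u i x ^ 2) else 0)
        = C2 u i := by
      unfold C2
      refine Finset.sum_congr rfl (fun k _ => ?_)
      by_cases hk : k = i
      · subst hk; simp [c_self]
      · simp [hk]
    rw [e1, e2]
    unfold T
    ring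
  rw [h2, h3, h4] at h1
  have h5 : nsq (Z u i) = ∑ a, (∑ j, x j * u j a) * (∑ k, x k * u k a) := by
    unfold nsq
    refine Finset.sum_congr rfl (fun a _ => ?_)
    rw [hZ a]; ring
  rw [h5, h1]
  ring

lemma ip_Z (i k : ι) (hik : k ≠ i) :
    ip (Z u i) (u k) = (N : ℝ) - 1 + C1 u i - CC u i k := by
  set x : ι → ℝ := fun j => ((N : ℝ) - 1) * (if j = i then 1 else 0) + c u i j with hx
  have hZ : ∀ a, Z u i a = ∑ j, x j * u j a := by
    intro a
    simp only [hx, Z, add_mul, Finset.sum_add_distrib]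
    congr 1
    simp
  have h1 := h.gram_expand x (fun l => if l = k then (1 : ℝ) else 0)
  have h2 : ∑ j, x j = (N : ℝ) - 1 + C1 u i := by
    simp only [hx, Finset.sum_add_distrib, ← Finset.mul_sum, C1]
    simp
  have h3 : ip (Z u i) (u k) = ∑ a, (∑ j, x j * u j a) * (∑ l, (if l = k then (1 : ℝ) else 0) * u l a) := by
    unfold ip
    refine Finset.sum_congr rfl (fun a _ => ?_)
    rw [hZ a]; simp
  rw [h3, h1, h2]
  simp only [mul_ite, mul_one, mul_zero, ite_mul, zero_mul, Finset.sum_ite_eq', Finset.mem_univ,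
    if_true]
  have h4 : ∑ j, x j * c u j k = ((N : ℝ) - 1) * c u i k + CC u i k := by
    simp only [hx, add_mul, Finset.sum_add_distrib, CC]
    congr 1
    simp
  rw [h4]
  simp only [hx, hik, if_false]
  ring

lemma C1_nonneg (i : ι) : 0 ≤ C1 u i := Finset.sum_nonneg (fun j _ => h.c_nonneg i j)
lemma C2_nonneg (i : ι) : 0 ≤ C2 u i := Finset.sum_nonneg (fun j _ => sq_nonneg _)
lemma T_nonneg (i : ι) : 0 ≤ T u i := Finset.sum_nonneg (fun j _ => Finset.sum_nonneg
  (fun k _ => mul_nonneg (mul_nonneg (h.c_nonneg i j) (h.c_nonneg i k)) (h.c_nonneg j k)))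

lemma sum_C1_sq : ∑ i, C1 u i ^ 2 ≤ (Fintype.card ι : ℝ) * ((N : ℝ) - 1 + Fintype.card ι) ^ 2
    - 2 * ((N : ℝ) - 1 + Fintype.card ι) * nsq (sg u)
    + nsq (sg u) * (2 * ((N : ℝ) - 1) + Fintype.card ι) := by
  have h1 := h.bessel (sg u)
  have h2 := h.sum_ip_sg
  have h3 : ∀ i, C1 u i = ((N : ℝ) - 1) + Fintype.card ι - ip (sg u) (u i) := by
    intro i; rw [h.ip_sg]; ring
  have h4 : ∑ i, C1 u i ^ 2 = (Fintype.card ι : ℝ) * ((N : ℝ) - 1 + Fintype.card ι) ^ 2
    - 2 * ((N : ℝ) - 1 + Fintype.card ι) * nsq (sg u) + ∑ i, (ip (sg u) (u i)) ^ 2 := by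
    rw [← h2]
    have : ∀ i, C1 u i ^ 2 = ((N : ℝ) - 1 + Fintype.card ι) ^ 2
      - 2 * ((N : ℝ) - 1 + Fintype.card ι) * ip (sg u) (u i) + (ip (sg u) (u i)) ^ 2 := by
      intro i; rw [h3 i]; ring
    rw [Finset.sum_congr rfl (fun i _ => this i), Finset.sum_add_distrib,
      Finset.sum_sub_distrib, ← Finset.mul_sum]
    simp
  rw [h4]
  linarith

/-- The estimate on `∑_{k ≠ i} (C²)_{ik}²`. -/
lemma sum_CC_sq (i : ι) (hN : 1 ≤ N) :
    ∑ k ∈ Finset.univ.erase i, CC u i k ^ 2 ≤ 2 * (Fintype.card ι : ℝ) * ((N : ℝ) - 1 + C1 u i) ^ 2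
      + 2 * (nsq (Z u i) * (2 * ((N : ℝ) - 1) + Fintype.card ι)) := by
  have h1 := h.bessel (Z u i)
  have h2 : ∀ k ∈ Finset.univ.erase i, CC u i k ^ 2 ≤ 2 * ((N : ℝ) - 1 + C1 u i) ^ 2
      + 2 * (ip (Z u i) (u k)) ^ 2 := by
    intro k hk
    have hk' : k ≠ i := by simpa using hk
    have := h.ip_Z i k hk'
    have e : CC u i k = ((N : ℝ) - 1 + C1 u i) - ip (Z u i) (u k) := by rw [this]; ring
    rw [e]
    nlinarith [sq_nonneg ((N : ℝ) - 1 + C1 u i + ip (Z u i) (u k))]
  calc ∑ k ∈ Finset.univ.erase i, CC u i k ^ 2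
      ≤ ∑ k ∈ Finset.univ.erase i, (2 * ((N : ℝ) - 1 + C1 u i) ^ 2
      + 2 * (ip (Z u i) (u k)) ^ 2) := Finset.sum_le_sum h2
    _ ≤ ∑ k, (2 * ((N : ℝ) - 1 + C1 u i) ^ 2 + 2 * (ip (Z u i) (u k)) ^ 2) := by
        refine Finset.sum_le_sum_of_subset_of_nonneg (Finset.erase_subset _ _) ?_
        intro k _ _
        positivity
    _ = (Fintype.card ι : ℝ) * (2 * ((N : ℝ) - 1 + C1 u i) ^ 2)
          + 2 * ∑ k, (ip (Z u i) (u k)) ^ 2 := by
        rw [Finset.sum_add_distrib, ← Finset.mul_sum, ← Finset.mul_sum]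
        simp
        ring
    _ ≤ _ := by linarith

/-- diagonal terms of `∑_{i≠k} (C²)_{ik}²` -/
lemma sum_C2_sq_sub : ∑ j, (C2 u j ^ 2 - C4 u j) ≤ ∑ i, ∑ k ∈ Finset.univ.erase i, CC u i k ^ 2 := by
  have h1 : ∀ i k, ∑ j, c u j i ^ 2 * c u j k ^ 2 ≤ CC u i k ^ 2 := by
    intro i k
    unfold CC
    have : ∀ j, c u j i ^ 2 * c u j k ^ 2 = (c u i j * c u j k) ^ 2 := by
      intro j; rw [c_comm u j i]; ring
    rw [Finset.sum_congr rfl (fun j _ => this j)]
    exact Finset.sum_sq_le_sq_sum_of_nonneg (fun j _ => mul_nonneg (h.c_nonneg i j) (h.c_nonneg j k))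
  calc ∑ j, (C2 u j ^ 2 - C4 u j)
      = ∑ j, ∑ i, ∑ k ∈ Finset.univ.erase i, c u j i ^ 2 * c u j k ^ 2 := by
        refine Finset.sum_congr rfl (fun j _ => ?_)
        have e : ∀ i, ∑ k ∈ Finset.univ.erase i, c u j i ^ 2 * c u j k ^ 2
            = c u j i ^ 2 * C2 u j - c u j i ^ 4 := by
          intro i
          have := Finset.add_sum_erase Finset.univ (fun k => c u j i ^ 2 * c u j k ^ 2)
            (Finset.mem_univ i)
          have h2 : ∑ k, c u j i ^ 2 * c u j k ^ 2 = c u j i ^ 2 * C2 u j := by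
            unfold C2; rw [Finset.mul_sum]
          rw [h2] at this
          have h3 : c u j i ^ 2 * c u j i ^ 2 = c u j i ^ 4 := by ring
          simp only [h3] at this
          linarith
        rw [Finset.sum_congr rfl (fun i _ => e i), Finset.sum_sub_distrib, ← Finset.sum_mul]
        unfold C4
        have : ∑ i, c u j i ^ 2 = C2 u j := rfl
        rw [this]; ring
    _ = ∑ i, ∑ k ∈ Finset.univ.erase i, ∑ j, c u j i ^ 2 * c u j k ^ 2 := by
        rw [Finset.sum_comm]
        refine Finset.sum_congr rfl (fun i _ => ?_)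
        rw [Finset.sum_comm]
    _ ≤ _ := Finset.sum_le_sum (fun i _ => Finset.sum_le_sum (fun k _ => h1 i k))

end Sys

end Pool.Agent.W_MP_7483c9_co
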