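import Pool.Agent.W_MP_7483c9_co.Final

set_option autoImplicit false
set_option linter.unusedSectionVars false
set_option linter.unusedVariables false
set_option linter.unusedSimpArgs false

namespace Pool.Agent.W_MP_7483c9_co

open Finset

/-- sign of a bit -/
def sgn (b : Bool) : ℝ := if b then -1 else 1

lemma sgn_mul (b b' : Bool) : sgn b * sgn b' = if b = b' then 1 else -1 := by
  cases b <;> cases b' <;> simp [sgn]

/-- parity modification of a binary word, as a `±1` vector -/
noncomputable def pv {K : ℕ} (x : Fin (K + 1) → Bool) : Fin (K + 1) → ℝ :=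
  Fin.snoc (α := fun _ => ℝ) (fun a : Fin K => sgn (x a.castSucc)) (∏ a : Fin K, sgn (x a.castSucc))

lemma prod_pm {K : ℕ} (f : Fin K → ℝ) (hf : ∀ a, f a = 1 ∨ f a = -1) :
    ∏ a, f a = 1 ∨ ∏ a, f a = -1 := by
  classical
  refine Finset.prod_induction f (fun z => z = 1 ∨ z = -1) ?_ (Or.inl rfl) (fun a _ => hf a)
  rintro x y (rfl | rfl) (rfl | rfl) <;> norm_num

lemma sgn_pm (b : Bool) : sgn b = 1 ∨ sgn b = -1 := by cases b <;> simp [sgn]

lemma pv_pm {K : ℕ} (x : Fin (K + 1) → Bool) (a : Fin (K + 1)) : pv x a = 1 ∨ pv x a = -1 := by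
  unfold pv
  refine Fin.lastCases ?_ (fun i => ?_) a
  · rw [Fin.snoc_last]; exact prod_pm _ (fun a => sgn_pm _)
  · rw [Fin.snoc_castSucc]; exact sgn_pm _

/-- inner product of two parity modified words -/
lemma pv_ip {K : ℕ} (x y : Fin (K + 1) → Bool) :
    ∑ a, pv x a * pv y a
      = (K : ℝ) - 2 * ((Finset.univ.filter (fun a : Fin K => x a.castSucc ≠ y a.castSucc)).card : ℝ)
        + (-1) ^ (Finset.univ.filter (fun a : Fin K => x a.castSucc ≠ y a.castSucc)).card := by
  classical
  rw [Fin.sum_univ_castSucc]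
  unfold pv
  simp only [Fin.snoc_castSucc, Fin.snoc_last]
  congr 1
  · have : ∀ a : Fin K, sgn (x a.castSucc) * sgn (y a.castSucc)
        = 1 - 2 * (if x a.castSucc ≠ y a.castSucc then 1 else 0) := by
      intro a
      rw [sgn_mul]
      by_cases e : x a.castSucc = y a.castSucc
      · simp [e]
      · simp [e]; norm_num
    rw [Finset.sum_congr rfl (fun a _ => this a), Finset.sum_sub_distrib, ← Finset.mul_sum,
      Finset.sum_boole]
    simp
  · rw [← Finset.prod_mul_distrib]
    have : ∀ a : Fin K, sgn (x a.castSucc) * sgn (y a.castSucc)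
        = (if x a.castSucc ≠ y a.castSucc then (-1 : ℝ) else 1) := by
      intro a
      rw [sgn_mul]
      by_cases e : x a.castSucc = y a.castSucc
      · simp [e]
      · simp [e]
    rw [Finset.prod_congr rfl (fun a _ => this a), Finset.prod_ite]
    simp

lemma dist_le {K : ℕ} (x y : Fin (K + 1) → Bool) :
    hammingDist x y
      ≤ (Finset.univ.filter (fun a : Fin K => x a.castSucc ≠ y a.castSucc)).card + 1 := by
  classical
  have hsub : Finset.univ.filter (fun a : Fin (K + 1) => x a ≠ y a)
      ⊆ (Finset.univ.filter (fun a : Fin K => x a.castSucc ≠ y a.castSucc)).image Fin.castSucc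
        ∪ {Fin.last K} := by
    intro a ha
    rw [Finset.mem_union]
    refine Fin.lastCases (motive := fun a => a ∈ Finset.univ.filter (fun a : Fin (K + 1) => x a ≠ y a) →
      (a ∈ (Finset.univ.filter (fun a : Fin K => x a.castSucc ≠ y a.castSucc)).image Fin.castSucc
        ∨ a ∈ ({Fin.last K} : Finset (Fin (K + 1))))) ?_ (fun i => ?_) a ha
    · intro _; right; simp
    · intro hi
      left
      rw [Finset.mem_image]
      exact ⟨i, by simpa using hi, rfl⟩
  have h1 := Finset.card_le_card hsub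
  have h2 := h1.trans (Finset.card_union_le _ _)
  rw [Finset.card_singleton] at h2
  have h3 := Finset.card_image_le
    (s := Finset.univ.filter (fun a : Fin K => x a.castSucc ≠ y a.castSucc)) (f := Fin.castSucc)
  unfold hammingDist
  omega

/-- codes of the critical parameters give `Sys` families -/
lemma sys_of_code {K : ℕ} (hK : K % 4 = 0) (S : Finset (Fin (K + 1) → Bool))
    (hS : ∀ x ∈ S, ∀ y ∈ S, x ≠ y → K / 2 ≤ hammingDist x y) :
    Sys (fun i : {x // x ∈ S} => pv i.1) := by
  classical
  obtain ⟨k, rfl⟩ : ∃ k, K = 4 * k := ⟨K / 4, by omega⟩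
  refine ⟨fun i a => pv_pm i.1 a, ?_, ?_⟩
  · intro i j hij
    have hne : i.1 ≠ j.1 := fun e => hij (Subtype.ext e)
    have h1 := hS i.1 i.2 j.1 j.2 hne
    have h2 := dist_le i.1 j.1
    rw [pv_ip]
    set D := (Finset.univ.filter (fun a : Fin (4 * k) => i.1 a.castSucc ≠ j.1 a.castSucc)).card
      with hD
    rcases Nat.even_or_odd D with he | ho
    · rw [he.neg_one_pow]
      have : 2 * k ≤ D := by
        obtain ⟨t, ht⟩ := he
        omega
      have : (2 * k : ℝ) ≤ D := by exact_mod_cast this
      push_cast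
      linarith
    · rw [ho.neg_one_pow]
      have : 2 * k ≤ D + 1 := by omega
      have : (2 * k : ℝ) ≤ D + 1 := by exact_mod_cast this
      push_cast
      linarith
  · intro i j
    rw [pv_ip]
    set D := (Finset.univ.filter (fun a : Fin (4 * k) => i.1 a.castSucc ≠ j.1 a.castSucc)).card
      with hD
    rcases Nat.even_or_odd D with he | ho
    · rw [he.neg_one_pow]
      obtain ⟨t, ht⟩ := he
      refine ⟨t - k, ?_⟩
      rw [ht]; push_cast; ring
    · rw [ho.neg_one_pow]
      obtain ⟨t, ht⟩ := ho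
      refine ⟨t + 1 - k, ?_⟩
      rw [ht]; push_cast; ring

/-- the upper bound -/
theorem upper {K : ℕ} (hK : K % 4 = 0) (hK8 : 10 ^ 8 ≤ K) (code : Finset (Fin (K + 1) → Bool))
    (hc : ∀ x ∈ code, ∀ y ∈ code, x ≠ y → K / 2 ≤ hammingDist x y) :
    code.card ≤ 2 * (K + 2) := by
  classical
  by_contra hcon
  push Not at hcon
  obtain ⟨S, hS, hScard⟩ := Finset.exists_subset_card_eq (s := code) (n := 2 * (K + 2) + 1) hcon
  have hsys := sys_of_code hK S (fun x hx y hy => hc x (hS hx) y (hS hy))
  refine hsys.no_sys ?_ ?_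
  · rw [Fintype.card_coe, hScard]
    push_cast; ring
  · have : ((10 ^ 8 : ℕ) : ℝ) ≤ (K : ℝ) := by exact_mod_cast hK8
    push_cast at this ⊢
    linarith

end Pool.Agent.W_MP_7483c9_co
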